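import Pool.Agent.H59.L.T97aac3.Q188.SB.Tr
import Pool.Agent.H59.L.S8.H212R2.KLS.T1

/-!
# Concentration from a function with midpoint defect

`h ≥ 0` is concave on a convex body `K`, with `h ((x + y) / 2) ≥ (h x + h y) / 2 + δ` for `|x - y| ≥ t`, and
`h < u₀` on the proportion `p` of `K`. Then `1`-Lipschitz functions have variance at most
`C t² (1 + u₀ / (p δ))²` on `K`.
-/

set_option autoImplicit false

namespace Pool.Agent.H59.SC

open MeasureTheory Set Filter Topology
open scoped ENNReal InnerProductSpace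
open Pool.Agent.W695.KH

variable {κ : Type} [Fintype κ] {K : Set (Eu κ)} {h : Eu κ → ℝ}

/-- the midpoint defect grows linearly -/
theorem doubling (hcon : ConcaveOn ℝ K h) {t δ : ℝ} (ht : 0 < t)
    (hd : ∀ x ∈ K, ∀ y ∈ K, t ≤ ‖x - y‖ → (h x + h y) / 2 + δ ≤ h ((1 / 2 : ℝ) • (x + y)))
    (hδ : 0 < δ) (x : Eu κ) (hx : x ∈ K) (y : Eu κ) (hy : y ∈ K) (hxy : t ≤ ‖x - y‖) :
    (h x + h y) / 2 + δ * ‖x - y‖ / (2 * t) ≤ h ((1 / 2 : ℝ) • (x + y)) := by
  have mid : ∀ x ∈ K, ∀ y ∈ K, (1 / 2 : ℝ) • (x + y) ∈ K := by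
    intro x hx y hy
    rw [smul_add]
    exact hcon.1 hx hy (by norm_num) (by norm_num) (by norm_num)
  have claim : ∀ k : ℕ, ∀ x ∈ K, ∀ y ∈ K, 2 ^ k * t ≤ ‖x - y‖ →
      (h x + h y) / 2 + 2 ^ k * δ ≤ h ((1 / 2 : ℝ) • (x + y)) := by
    intro k
    induction k with
    | zero =>
      intro x hx y hy hxy
      rw [pow_zero, one_mul] at hxy ⊢
      exact hd x hx y hy hxy
    | succ k ih =>
      intro x hx y hy hxy
      set z := (1 / 2 : ℝ) • (x + y) with hz
      have hzK := mid x hx y hy
      have n1 : ‖x - z‖ = ‖x - y‖ / 2 := by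
        have e : x - z = (1 / 2 : ℝ) • (x - y) := by rw [hz]; module
        rw [e, norm_smul, Real.norm_of_nonneg (by norm_num)]
        ring
      have n2 : ‖z - y‖ = ‖x - y‖ / 2 := by
        have e : z - y = (1 / 2 : ℝ) • (x - y) := by rw [hz]; module
        rw [e, norm_smul, Real.norm_of_nonneg (by norm_num)]
        ring
      rw [pow_succ] at hxy ⊢
      have h1 := ih x hx z hzK (by rw [n1]; linarith)
      have h2 := ih z hzK y hy (by rw [n2]; linarith)
      have h3 := hcon.2 (mid x hx z hzK) (mid z hzK y hy) (by norm_num : (0 : ℝ) ≤ 1 / 2)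
        (by norm_num : (0 : ℝ) ≤ 1 / 2) (by norm_num)
      have e : (1 / 2 : ℝ) • ((1 / 2 : ℝ) • (x + z)) + (1 / 2 : ℝ) • ((1 / 2 : ℝ) • (z + y)) = z := by
        rw [hz]; module
      rw [e, smul_eq_mul, smul_eq_mul] at h3
      linarith
  obtain ⟨k, hk1, hk2⟩ := exists_nat_pow_near (x := ‖x - y‖ / t) (y := 2)
    ((one_le_div ht).2 hxy) (by norm_num)
  have h1 := claim k x hx y hy (by rwa [le_div_iff₀ ht] at hk1)
  refine le_trans ?_ h1
  have h2 : δ * ‖x - y‖ / (2 * t) = δ * (‖x - y‖ / t) / 2 := by field_simp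
  rw [h2]
  rw [pow_succ] at hk2
  nlinarith

/-- sets where a nonnegative concave function is large -/
theorem level (hK : IsCompact K) (hpos : 0 < volume K) (hc : Continuous h)
    (hcon : ConcaveOn ℝ K h) (h0 : ∀ x ∈ K, 0 ≤ h x) {u0 p : ℝ} (hu0 : 0 < u0) (hp : 0 < p)
    (hp1 : p ≤ 1) (hq : volume (K ∩ {x | u0 ≤ h x}) ≤ ENNReal.ofReal (1 - p) * volume K)
    (u : ℝ) (hu : 0 < u) :
    volume (K ∩ {x | u ≤ h x}) ≤
      ENNReal.ofReal (Real.exp 1 * Real.exp (-(p / u0 * u))) * volume K := by
  have hfin : volume K ≠ ⊤ := hK.measure_lt_top.ne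
  rcases lt_or_ge u u0 with h1 | h1
  · have h2 : (1 : ℝ) ≤ Real.exp 1 * Real.exp (-(p / u0 * u)) := by
      rw [← Real.exp_add]
      apply Real.one_le_exp
      have : p / u0 * u ≤ 1 := by
        rw [div_mul_eq_mul_div, div_le_one hu0]
        nlinarith
      linarith
    calc volume (K ∩ {x | u ≤ h x}) ≤ volume K := measure_mono inter_subset_left
      _ = ENNReal.ofReal 1 * volume K := by rw [ENNReal.ofReal_one, one_mul]
      _ ≤ _ := by gcongr
  · set θ : ℝ := u0 / u with hθ
    have hθ0 : 0 < θ := div_pos hu0 hu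
    have hθ1 : θ ≤ 1 := (div_le_one hu).2 h1
    have hθu : θ * u = u0 := by rw [hθ]; field_simp
    have hmeas : ∀ r : ℝ, MeasurableSet (K ∩ {x | r ≤ h x}) := fun r =>
      hK.measurableSet.inter (isClosed_le continuous_const hc).measurableSet
    have key : volume K ^ (1 - θ) * volume (K ∩ {x | u ≤ h x}) ^ θ ≤
        volume (K ∩ {x | u0 ≤ h x}) := by
      rcases hθ1.lt_or_eq with h2 | h2
      · have := Pool.Agent.H212R2.KLS.PL (volume : Measure (Eu κ)) θ hθ0 h2
          (K.indicator fun _ => 1) ((K ∩ {x | u ≤ h x}).indicator fun _ => 1)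
          ((K ∩ {x | u0 ≤ h x}).indicator fun _ => 1) (measurable_const.indicator hK.measurableSet)
          (measurable_const.indicator (hmeas u)) (measurable_const.indicator (hmeas u0))
          (fun x y => by
            have hl : 0 < 1 - θ := by linarith
            by_cases hx : x ∈ K
            · by_cases hy : y ∈ K ∩ {x | u ≤ h x}
              · have hz : (1 - θ) • x + θ • y ∈ K ∩ {x | u0 ≤ h x} := by
                  refine ⟨hcon.1 hx hy.1 hl.le hθ0.le (by ring), ?_⟩
                  have h3 := hcon.2 hx hy.1 hl.le hθ0.le (by ring)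
                  have h4 : u ≤ h y := hy.2
                  have h5 := h0 x hx
                  rw [smul_eq_mul, smul_eq_mul] at h3
                  show u0 ≤ h ((1 - θ) • x + θ • y)
                  nlinarith [mul_nonneg hl.le h5, mul_le_mul_of_nonneg_left h4 hθ0.le]
                rw [indicator_of_mem hx, indicator_of_mem hy, indicator_of_mem hz]
                simp
              · rw [indicator_of_notMem hy, ENNReal.zero_rpow_of_pos hθ0, mul_zero]
                exact bot_le
            · rw [indicator_of_notMem hx, ENNReal.zero_rpow_of_pos hl, zero_mul]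
              exact bot_le)
        rw [lintegral_indicator_const hK.measurableSet, lintegral_indicator_const (hmeas u),
          lintegral_indicator_const (hmeas u0), one_mul, one_mul, one_mul] at this
        exact this
      · have hu' : u = u0 := by
          rw [h2, one_mul] at hθu
          exact hθu
        rw [h2, hu', sub_self, ENNReal.rpow_zero, one_mul, ENNReal.rpow_one]
    have h3 : volume K ^ (1 - θ) * volume (K ∩ {x | u ≤ h x}) ^ θ ≤
        volume K ^ (1 - θ) * (ENNReal.ofReal (Real.exp (-(p / u0 * u))) * volume K) ^ θ := by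
      refine (key.trans hq).trans (le_of_eq_of_le ?_ (?_ :
        volume K ^ (1 - θ) * (ENNReal.ofReal (1 - p) * volume K ^ θ) ≤ _))
      · have e1 : volume K = volume K ^ (1 - θ) * volume K ^ θ := by
          rw [← ENNReal.rpow_add _ _ hpos.ne' hfin]
          simp
        conv_lhs => rw [e1]
        ring
      · gcongr
        rw [ENNReal.mul_rpow_of_nonneg _ _ hθ0.le]
        gcongr
        rw [ENNReal.ofReal_rpow_of_pos (Real.exp_pos _)]
        apply ENNReal.ofReal_le_ofReal
        rw [← Real.exp_mul]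
        have e2 : -(p / u0 * u) * θ = -p := by
          have : p / u0 * u * θ = p / u0 * (θ * u) := by ring
          rw [neg_mul, this, hθu]
          field_simp
        rw [e2]
        have := Real.add_one_le_exp (-p)
        linarith
    have h4 : volume K ^ (1 - θ) ≠ 0 := by
      rw [Ne, ENNReal.rpow_eq_zero_iff]
      push Not
      exact ⟨fun h => absurd h hpos.ne', fun h => absurd h hfin⟩
    have h5 : volume K ^ (1 - θ) ≠ ⊤ := ENNReal.rpow_ne_top_of_nonneg (by linarith) hfin
    have h6 := (ENNReal.mul_le_mul_iff_right h4 h5).1 h3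
    have h7 := (ENNReal.rpow_le_rpow_iff hθ0).1 h6
    refine h7.trans ?_
    gcongr
    have := Real.one_le_exp (zero_le_one (α := ℝ))
    have := Real.exp_pos (-(p / u0 * u))
    nlinarith

/-- the exponential moment -/
theorem expo (hK : IsCompact K) (hc : Continuous h) (h0 : ∀ x ∈ K, 0 ≤ h x)
    {M l : ℝ} (hM : 0 ≤ M) (hl0 : 0 < l)
    (hlev : ∀ u, 0 < u → volume (K ∩ {x | u ≤ h x}) ≤
      ENNReal.ofReal (M * Real.exp (-(2 * l * u))) * volume K) :
    ∫ x in K, Real.exp (l * h x) ≤ (1 + M) * (volume K).toReal := by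
  have hfin : volume K ≠ ⊤ := hK.measure_lt_top.ne
  have hKm := hK.measurableSet
  have h1 := lintegral_comp_eq_lintegral_meas_le_mul (volume.restrict K) (f := h)
    (g := fun t => l * Real.exp (l * t)) ((ae_restrict_iff' hKm).2 (Eventually.of_forall h0))
    hc.measurable.aemeasurable
    (fun t _ => (by fun_prop : Continuous fun t => l * Real.exp (l * t)).intervalIntegrable 0 t)
    (Eventually.of_forall fun t => by positivity)
  have e1 : ∀ a : ℝ, ∫ t in (0:ℝ)..a, l * Real.exp (l * t) = Real.exp (l * a) - 1 := by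
    intro a
    have := intervalIntegral.integral_eq_sub_of_hasDerivAt (a := 0) (b := a)
      (f := fun t => Real.exp (l * t)) (f' := fun t => l * Real.exp (l * t))
      (fun t _ => by
        have h2 : HasDerivAt (fun s : ℝ => Real.exp (l * s)) (Real.exp (l * t) * (l * 1)) t :=
          ((hasDerivAt_id t).const_mul l).exp
        rw [mul_one, mul_comm] at h2
        exact h2)
      ((by fun_prop : Continuous fun t => l * Real.exp (l * t)).intervalIntegrable 0 a)
    rw [this]
    simp
  simp only [e1] at h1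
  have h2 : ∫⁻ t in Ioi (0:ℝ), volume.restrict K {a | t ≤ h a} * ENNReal.ofReal (l * Real.exp (l * t)) ≤
      ∫⁻ t in Ioi (0:ℝ), volume K * (ENNReal.ofReal M * ENNReal.ofReal (l * Real.exp (-(l * t)))) := by
    refine setLIntegral_mono' measurableSet_Ioi fun t ht => ?_
    have h3 : volume.restrict K {a | t ≤ h a} ≤
        ENNReal.ofReal (M * Real.exp (-(2 * l * t))) * volume K := by
      rw [Measure.restrict_apply (isClosed_le continuous_const hc).measurableSet, inter_comm]
      exact hlev t ht
    calc volume.restrict K {a | t ≤ h a} * ENNReal.ofReal (l * Real.exp (l * t))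
        ≤ ENNReal.ofReal (M * Real.exp (-(2 * l * t))) * volume K *
          ENNReal.ofReal (l * Real.exp (l * t)) := by gcongr
      _ = volume K * (ENNReal.ofReal M * (ENNReal.ofReal (Real.exp (-(2 * l * t))) *
          ENNReal.ofReal (l * Real.exp (l * t)))) := by
          rw [ENNReal.ofReal_mul hM]
          ring
      _ = _ := by
          rw [← ENNReal.ofReal_mul (Real.exp_pos _).le]
          congr 3
          have : Real.exp (-(2 * l * t)) * (l * Real.exp (l * t)) =
              l * (Real.exp (-(2 * l * t)) * Real.exp (l * t)) := by ring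
          rw [this, ← Real.exp_add]
          congr 2
          ring
  have h3 : ∫⁻ t in Ioi (0:ℝ), volume K * (ENNReal.ofReal M * ENNReal.ofReal (l * Real.exp (-(l * t)))) =
      volume K * ENNReal.ofReal M := by
    rw [lintegral_const_mul _ (by fun_prop), lintegral_const_mul _ (by fun_prop)]
    have h4 : ∫⁻ t in Ioi (0:ℝ), ENNReal.ofReal (l * Real.exp (-(l * t))) = 1 := by
      have hi : IntegrableOn (fun t : ℝ => l * Real.exp (-(l * t))) (Ioi 0) := by
        have := (exp_neg_integrableOn_Ioi 0 hl0).const_mul l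
        simp only [neg_mul] at this
        exact this
      rw [← ofReal_integral_eq_lintegral_ofReal hi (Eventually.of_forall fun t => by positivity)]
      have h5 : ∫ t in Ioi (0:ℝ), l * Real.exp (-(l * t)) = 1 := by
        rw [integral_const_mul]
        have h7 : ∫ t in Ioi (0:ℝ), Real.exp (-(l * t)) = 1 / l := by
          have := integral_exp_mul_Ioi (a := -l) (by linarith) 0
          simp only [neg_mul, mul_zero, Real.exp_zero] at this
          rw [this]
          field_simp
        rw [h7]
        field_simp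
      rw [h5, ENNReal.ofReal_one]
    rw [h4, mul_one]
  rw [h3] at h2
  rw [← h1] at h2
  have hec : Continuous fun x => Real.exp (l * h x) := by fun_prop
  have hint : IntegrableOn (fun x => Real.exp (l * h x)) K := hec.continuousOn.integrableOn_compact hK
  have hint1 : IntegrableOn (fun x => Real.exp (l * h x) - 1) K :=
    (hec.sub continuous_const).continuousOn.integrableOn_compact hK
  have h5 : ∫ x in K, (Real.exp (l * h x) - 1) ≤ M * (volume K).toReal := by
    rw [integral_eq_lintegral_of_nonneg_ae]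
    · have h6 := ENNReal.toReal_mono (ENNReal.mul_ne_top hfin ENNReal.ofReal_ne_top) h2
      rw [ENNReal.toReal_mul, ENNReal.toReal_ofReal hM, mul_comm] at h6
      exact h6
    · refine (ae_restrict_iff' hKm).2 (Eventually.of_forall fun x hx => ?_)
      show 0 ≤ Real.exp (l * h x) - 1
      have := Real.one_le_exp (mul_nonneg hl0.le (h0 x hx))
      linarith
    · exact hint1.aestronglyMeasurable
  have h6 : ∫ x in K, (Real.exp (l * h x) - 1) = (∫ x in K, Real.exp (l * h x)) - (volume K).toReal := by
    rw [integral_sub hint (continuous_const.continuousOn.integrableOn_compact hK)]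
    simp [Measure.real]
  rw [h6] at h5
  linarith

/-- Lipschitz bound from the derivative -/
theorem lip_of {f : Eu κ → ℝ} (hf : ContDiff ℝ 1 f) (hf1 : ∀ x, ‖fderiv ℝ f x‖ ≤ 1) (x y : Eu κ) :
    f x - f y ≤ ‖x - y‖ := by
  have h1 := Convex.norm_image_sub_le_of_norm_fderiv_le (𝕜 := ℝ) (f := f) (s := univ) (C := 1)
    (x := y) (y := x) (fun z _ => hf.differentiable (by norm_num) z) (fun z _ => hf1 z) convex_univ
    (mem_univ _) (mem_univ _)
  rw [one_mul, Real.norm_eq_abs] at h1
  exact (le_abs_self _).trans h1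

/-- the product of the exponential moments of `f` and `-f` -/
theorem prod_exp (hK : IsCompact K) (hc : Continuous h)
    (hcon : ConcaveOn ℝ K h) {t δ : ℝ} (ht : 0 < t) (hδ : 0 < δ)
    (hd : ∀ x ∈ K, ∀ y ∈ K, t ≤ ‖x - y‖ → (h x + h y) / 2 + δ ≤ h ((1 / 2 : ℝ) • (x + y)))
    (h0 : ∀ x ∈ K, 0 ≤ h x) {l B : ℝ} (hl : 0 < l) (hlδ : l * δ ≤ 1)
    (hexp : ∫ x in K, Real.exp (l * h x) ≤ B * (volume K).toReal) {f : Eu κ → ℝ}
    (hf : ContDiff ℝ 1 f) (hf1 : ∀ x, ‖fderiv ℝ f x‖ ≤ 1) :
    (∫ x in K, Real.exp (l * δ / t * f x)) * (∫ x in K, Real.exp (-(l * δ / t * f x))) ≤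
      Real.exp 1 * (B * (volume K).toReal) ^ 2 := by
  set s := l * δ / t with hs
  have hs0 : 0 < s := by positivity
  have hKm := hK.measurableSet
  have hfc := hf.continuous
  have key := Pool.Agent.H212R2.KLS.PL (volume : Measure (Eu κ)) (1 / 2) (by norm_num) (by norm_num)
    (K.indicator fun x => ENNReal.ofReal (Real.exp (s * f x + l * h x)))
    (K.indicator fun x => ENNReal.ofReal (Real.exp (-(s * f x) + l * h x)))
    (K.indicator fun x => ENNReal.ofReal (Real.exp (1 / 2 + l * h x)))
    ((by fun_prop : Measurable fun x => ENNReal.ofReal (Real.exp (s * f x + l * h x))).indicator hKm)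
    ((by fun_prop : Measurable fun x => ENNReal.ofReal (Real.exp (-(s * f x) + l * h x))).indicator hKm)
    ((by fun_prop : Measurable fun x => ENNReal.ofReal (Real.exp (1 / 2 + l * h x))).indicator hKm)
    (fun x y => by
      have e12 : (1 - 1 / 2 : ℝ) = 1 / 2 := by norm_num
      rw [e12]
      by_cases hx : x ∈ K
      · by_cases hy : y ∈ K
        · have hz : (1 / 2 : ℝ) • x + (1 / 2 : ℝ) • y ∈ K :=
            hcon.1 hx hy (by norm_num) (by norm_num) (by norm_num)
          rw [indicator_of_mem hx, indicator_of_mem hy, indicator_of_mem hz,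
            ENNReal.ofReal_rpow_of_pos (Real.exp_pos _), ENNReal.ofReal_rpow_of_pos (Real.exp_pos _),
            ← ENNReal.ofReal_mul (by positivity), ← Real.exp_mul, ← Real.exp_mul, ← Real.exp_add]
          apply ENNReal.ofReal_le_ofReal
          apply Real.exp_le_exp.2
          have hL := lip_of hf hf1 x y
          have hsL : s * (f x - f y) ≤ s * ‖x - y‖ := mul_le_mul_of_nonneg_left hL hs0.le
          rcases le_or_gt t ‖x - y‖ with h1 | h1
          · have h2 := doubling hcon ht hd hδ x hx y hy h1
            rw [smul_add] at h2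
            have h3 := mul_le_mul_of_nonneg_left h2 hl.le
            have h4 : l * (δ * ‖x - y‖ / (2 * t)) = s * ‖x - y‖ / 2 := by
              rw [hs]; field_simp
            nlinarith
          · have h2 := hcon.2 hx hy (by norm_num : (0 : ℝ) ≤ 1 / 2) (by norm_num : (0 : ℝ) ≤ 1 / 2)
              (by norm_num)
            rw [smul_eq_mul, smul_eq_mul] at h2
            have h3 := mul_le_mul_of_nonneg_left h2 hl.le
            have h4 : s * ‖x - y‖ ≤ 1 := by
              calc s * ‖x - y‖ ≤ s * t := mul_le_mul_of_nonneg_left h1.le hs0.le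
                _ = l * δ := by rw [hs]; field_simp
                _ ≤ 1 := hlδ
            nlinarith
        · rw [indicator_of_notMem hy, ENNReal.zero_rpow_of_pos (by norm_num), mul_zero]
          exact bot_le
      · rw [indicator_of_notMem hx, ENNReal.zero_rpow_of_pos (by norm_num), zero_mul]
        exact bot_le)
  have e12 : (1 - 1 / 2 : ℝ) = 1 / 2 := by norm_num
  rw [e12, lintegral_indicator hKm, lintegral_indicator hKm, lintegral_indicator hKm] at key
  have cvt : ∀ g : Eu κ → ℝ, Continuous g → ∫⁻ x in K, ENNReal.ofReal (Real.exp (g x)) =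
      ENNReal.ofReal (∫ x in K, Real.exp (g x)) := by
    intro g hg
    rw [ofReal_integral_eq_lintegral_ofReal]
    · exact (Real.continuous_exp.comp hg).continuousOn.integrableOn_compact hK
    · exact Eventually.of_forall fun x => (Real.exp_pos _).le
  rw [cvt _ (by fun_prop), cvt _ (by fun_prop), cvt _ (by fun_prop)] at key
  set a := ∫ x in K, Real.exp (s * f x + l * h x) with ha
  set b := ∫ x in K, Real.exp (-(s * f x) + l * h x) with hb
  set c := ∫ x in K, Real.exp (1 / 2 + l * h x) with hcc
  have ha0 : 0 ≤ a := integral_nonneg fun x => (Real.exp_pos _).le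
  have hb0 : 0 ≤ b := integral_nonneg fun x => (Real.exp_pos _).le
  have hc0 : 0 ≤ c := integral_nonneg fun x => (Real.exp_pos _).le
  rw [ENNReal.ofReal_rpow_of_nonneg ha0 (by norm_num), ENNReal.ofReal_rpow_of_nonneg hb0 (by norm_num),
    ← ENNReal.ofReal_mul (by positivity), ENNReal.ofReal_le_ofReal_iff hc0, ← Real.mul_rpow ha0 hb0,
    ← Real.sqrt_eq_rpow] at key
  have h5 : a * b ≤ c ^ 2 := by
    have := pow_le_pow_left₀ (Real.sqrt_nonneg _) key 2
    rwa [Real.sq_sqrt (mul_nonneg ha0 hb0)] at this
  have h6 : c = Real.exp (1 / 2) * ∫ x in K, Real.exp (l * h x) := by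
    rw [hcc, ← integral_const_mul]
    refine integral_congr_ae (Eventually.of_forall fun x => ?_)
    show Real.exp (1 / 2 + l * h x) = Real.exp (1 / 2) * Real.exp (l * h x)
    rw [Real.exp_add]
  have h7 : 0 ≤ ∫ x in K, Real.exp (l * h x) := integral_nonneg fun x => (Real.exp_pos _).le
  have h8 : c ^ 2 ≤ Real.exp 1 * (B * (volume K).toReal) ^ 2 := by
    rw [h6, mul_pow]
    have e : Real.exp (1 / 2) ^ 2 = Real.exp 1 := by
      rw [← Real.exp_nat_mul]
      norm_num
    rw [e]
    gcongr
  have mono : ∀ g : Eu κ → ℝ, Continuous g → ∫ x in K, Real.exp (g x) ≤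
      ∫ x in K, Real.exp (g x + l * h x) := by
    intro g hg
    refine setIntegral_mono_on ((Real.continuous_exp.comp hg).continuousOn.integrableOn_compact hK)
      ((Real.continuous_exp.comp (hg.add (continuous_const.mul hc))).continuousOn.integrableOn_compact hK)
      hKm fun x hx => ?_
    apply Real.exp_le_exp.2
    have := mul_nonneg hl.le (h0 x hx)
    linarith
  have m1 := mono (fun x => s * f x) (by fun_prop)
  have m2 := mono (fun x => -(s * f x)) (by fun_prop)
  have n1 : 0 ≤ ∫ x in K, Real.exp (-(s * f x)) := integral_nonneg fun x => (Real.exp_pos _).le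
  calc (∫ x in K, Real.exp (s * f x)) * (∫ x in K, Real.exp (-(s * f x))) ≤ a * b :=
        mul_le_mul m1 m2 n1 ha0
    _ ≤ _ := h5.trans h8

/-- from exponential moments to the variance -/
theorem var_of_exp (hK : IsCompact K) (hpos : 0 < volume K) {g : Eu κ → ℝ} (hg : Continuous g)
    {C : ℝ} (hC : (∫ x in K, Real.exp (g x)) * (∫ x in K, Real.exp (-(g x))) ≤
      C * (volume K).toReal ^ 2) : VV K g ≤ 4 * C := by
  have hfin : volume K ≠ ⊤ := hK.measure_lt_top.ne
  have hV : 0 < (volume K).toReal := ENNReal.toReal_pos hpos.ne' hfin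
  set N := (volume K).toReal with hN
  set b := EV K g with hb
  have hint : ∀ k : Eu κ → ℝ, Continuous k → IntegrableOn k K := fun k hk =>
    hk.continuousOn.integrableOn_compact hK
  have hconst : ∀ c : ℝ, ∫ _x in K, c = c * N := by
    intro c
    rw [setIntegral_const, smul_eq_mul, Measure.real]
    ring
  have hgb : ∫ x in K, g x = b * N := by
    rw [hb]
    unfold EV
    rw [← hN]
    field_simp
  have e1 : ∫ x in K, Real.exp (g x - b) = Real.exp (-b) * ∫ x in K, Real.exp (g x) := by
    rw [← integral_const_mul]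
    refine integral_congr_ae (Eventually.of_forall fun x => ?_)
    show Real.exp (g x - b) = Real.exp (-b) * Real.exp (g x)
    rw [← Real.exp_add]
    congr 1
    ring
  have e2 : ∫ x in K, Real.exp (b - g x) = Real.exp b * ∫ x in K, Real.exp (-(g x)) := by
    rw [← integral_const_mul]
    refine integral_congr_ae (Eventually.of_forall fun x => ?_)
    show Real.exp (b - g x) = Real.exp b * Real.exp (-(g x))
    rw [← Real.exp_add]
    congr 1
  set P := ∫ x in K, Real.exp (g x - b) with hP
  set Q := ∫ x in K, Real.exp (b - g x) with hQ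
  have hPQ : P * Q ≤ C * N ^ 2 := by
    rw [e1, e2]
    have : Real.exp (-b) * (∫ x in K, Real.exp (g x)) * (Real.exp b * ∫ x in K, Real.exp (-(g x))) =
        (Real.exp (-b) * Real.exp b) * ((∫ x in K, Real.exp (g x)) * ∫ x in K, Real.exp (-(g x))) := by
      ring
    rw [this, ← Real.exp_add, neg_add_cancel, Real.exp_zero, one_mul]
    exact hC
  have hPN : N ≤ P := by
    have h1 : ∫ x in K, (1 + (g x - b)) ≤ P := by
      refine setIntegral_mono_on (hint _ (by fun_prop)) (hint _ (by fun_prop)) hK.measurableSet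
        fun x _ => ?_
      have := Real.add_one_le_exp (g x - b)
      linarith
    have h2 : ∫ x in K, (1 + (g x - b)) = N := by
      have : (fun x => 1 + (g x - b)) = fun x => (1 - b) + g x := by
        funext x; ring
      rw [this, integral_add (hint _ continuous_const) (hint _ hg), hconst, hgb]
      ring
    linarith
  have hQN : N ≤ Q := by
    have h1 : ∫ x in K, (1 + (b - g x)) ≤ Q := by
      refine setIntegral_mono_on (hint _ (by fun_prop)) (hint _ (by fun_prop)) hK.measurableSet
        fun x _ => ?_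
      have := Real.add_one_le_exp (b - g x)
      linarith
    have h2 : ∫ x in K, (1 + (b - g x)) = N := by
      have : (fun x => 1 + (b - g x)) = fun x => (1 + b) - g x := by
        funext x; ring
      rw [this, integral_sub (hint _ continuous_const) (hint _ hg), hconst, hgb]
      ring
    linarith
  have hP2 : P ≤ C * N := by
    have : P * N ≤ C * N * N := by nlinarith
    exact le_of_mul_le_mul_right this hV
  have hQ2 : Q ≤ C * N := by
    have : Q * N ≤ C * N * N := by nlinarith
    exact le_of_mul_le_mul_right this hV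
  have hsq : ∀ z : ℝ, z ^ 2 / 2 ≤ Real.exp z + Real.exp (-z) - 2 := by
    intro z
    rcases le_total 0 z with h | h
    · have h1 := Real.quadratic_le_exp_of_nonneg h
      have h2 := Real.add_one_le_exp (-z)
      linarith
    · have h1 := Real.quadratic_le_exp_of_nonneg (neg_nonneg.2 h)
      have h2 := Real.add_one_le_exp z
      nlinarith
  have h3 : ∫ x in K, (g x - b) ^ 2 / 2 ≤ P + Q := by
    have h4 : ∫ x in K, (g x - b) ^ 2 / 2 ≤ ∫ x in K, (Real.exp (g x - b) + Real.exp (b - g x)) := by
      refine setIntegral_mono_on (hint _ (by fun_prop)) (hint _ (by fun_prop)) hK.measurableSet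
        fun x _ => ?_
      have := hsq (g x - b)
      rw [neg_sub] at this
      linarith
    rwa [integral_add (hint _ (by fun_prop)) (hint _ (by fun_prop))] at h4
  have h5 : ∫ x in K, (g x - b) ^ 2 / 2 = (∫ x in K, (g x - b) ^ 2) / 2 := integral_div _ _
  have h6 : ∫ x in K, (g x - b) ^ 2 = (∫ x in K, g x ^ 2) - b ^ 2 * N := by
    have : (fun x => (g x - b) ^ 2) = fun x => (g x ^ 2 - 2 * b * g x) + b ^ 2 := by
      funext x; ring
    rw [this, integral_add (hint _ (by fun_prop)) (hint _ continuous_const),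
      integral_sub (hint _ (by fun_prop)) (hint _ (by fun_prop)), integral_const_mul, hconst, hgb]
    ring
  unfold VV
  rw [← hb]
  unfold EV
  rw [← hN]
  have h7 : (∫ x in K, g x ^ 2) / N - b ^ 2 = ((∫ x in K, g x ^ 2) - b ^ 2 * N) / N := by
    field_simp
  rw [h7, ← h6, div_le_iff₀ hV]
  nlinarith

/-- **Lipschitz functions** -/
theorem lipvar (hK : IsCompact K) (hpos : 0 < volume K) (hc : Continuous h)
    (hcon : ConcaveOn ℝ K h) {t δ : ℝ} (ht : 0 < t) (hδ : 0 < δ)
    (hd : ∀ x ∈ K, ∀ y ∈ K, t ≤ ‖x - y‖ → (h x + h y) / 2 + δ ≤ h ((1 / 2 : ℝ) • (x + y)))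
    (h0 : ∀ x ∈ K, 0 ≤ h x) {u0 p : ℝ} (hu0 : 0 < u0) (hp : 0 < p) (hp1 : p ≤ 1)
    (hq : volume (K ∩ {x | u0 ≤ h x}) ≤ ENNReal.ofReal (1 - p) * volume K) {f : Eu κ → ℝ}
    (hf : ContDiff ℝ 1 f) (hf1 : ∀ x, ‖fderiv ℝ f x‖ ≤ 1) :
    VV K f ≤ 176 * (t * (1 + 2 * u0 / (p * δ))) ^ 2 := by
  have hV : 0 < (volume K).toReal := ENNReal.toReal_pos hpos.ne' hK.measure_lt_top.ne
  set l := min (p / (2 * u0)) (1 / δ) with hl
  have hl0 : 0 < l := lt_min (by positivity) (by positivity)
  have hl1 : l ≤ p / (2 * u0) := min_le_left _ _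
  have hlδ : l * δ ≤ 1 := by
    have : l ≤ 1 / δ := min_le_right _ _
    rwa [le_div_iff₀ hδ] at this
  have hexp := expo (M := Real.exp 1) hK hc h0 (Real.exp_pos 1).le hl0 (fun u hu =>
    (level hK hpos hc hcon h0 hu0 hp hp1 hq u hu).trans (by
      gcongr
      calc 2 * l ≤ 2 * (p / (2 * u0)) := by linarith
        _ = p / u0 := by field_simp))
  have h1 := prod_exp hK hc hcon ht hδ hd h0 hl0 hlδ hexp hf hf1
  set s := l * δ / t with hs
  have hs0 : 0 < s := by positivity
  have h2 := var_of_exp (g := fun x => s * f x) (C := Real.exp 1 * (1 + Real.exp 1) ^ 2) hK hpos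
    (by have := hf.continuous; fun_prop) (by
      refine h1.trans (le_of_eq ?_)
      ring)
  have h3 : VV K (fun x => s * f x) = s ^ 2 * VV K f := by
    unfold VV EV
    have e1 : (fun x => (s * f x) ^ 2) = fun x => s ^ 2 * f x ^ 2 := by
      funext x; ring
    rw [e1, integral_const_mul, integral_const_mul]
    ring
  rw [h3] at h2
  have he : 4 * (Real.exp 1 * (1 + Real.exp 1) ^ 2) ≤ 176 := by
    have := Real.exp_one_lt_d9
    have := Real.exp_pos 1
    have h4 : Real.exp 1 ≤ 2.72 := by linarith
    have h5 : (1 + Real.exp 1) ^ 2 ≤ 3.72 ^ 2 := pow_le_pow_left₀ (by positivity) (by linarith) 2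
    calc 4 * (Real.exp 1 * (1 + Real.exp 1) ^ 2) ≤ 4 * (2.72 * 3.72 ^ 2) := by gcongr
      _ ≤ 176 := by norm_num
  have h4 : VV K f ≤ 176 / s ^ 2 := by
    rw [le_div_iff₀ (by positivity)]
    linarith
  refine h4.trans ?_
  have h5 : 1 / s ≤ t * (1 + 2 * u0 / (p * δ)) := by
    rw [hs, one_div_div, div_le_iff₀ (by positivity)]
    have h6 : 1 ≤ (1 + 2 * u0 / (p * δ)) * (l * δ) := by
      rcases min_choice (p / (2 * u0)) (1 / δ) with h | h
      · have : l * δ = p * δ / (2 * u0) := by
          rw [hl, h]; ring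
        rw [this]
        have h7 : 2 * u0 / (p * δ) * (p * δ / (2 * u0)) = 1 := by field_simp
        have h8 : 0 ≤ p * δ / (2 * u0) := by positivity
        nlinarith
      · have : l * δ = 1 := by
          rw [hl, h]; field_simp
        rw [this]
        have h7 : 0 ≤ 2 * u0 / (p * δ) := by positivity
        linarith
    nlinarith
  have h6 : 176 / s ^ 2 = 176 * (1 / s) ^ 2 := by field_simp
  rw [h6]
  have h7 : 0 ≤ 1 / s := by positivity
  gcongr

end Pool.Agent.H59.SC
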