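import Pool.Agent.H59.SC.Sem
import Pool.Agent.H59.KJ.Ops

/-!
# The criterion for the covariance metric, for levels
-/

set_option autoImplicit false

namespace Pool.Agent.H59.SC

open MeasureTheory Set Filter Topology
open scoped ENNReal InnerProductSpace Pointwise
open Pool.Agent.W695.KH
open Pool.Agent.R754.KG (un un_prob)
open Pool.Agent.Y506.PV (CcW ind)
open Pool.Agent.Y506.RG (VW)
open Pool.Agent.H59.KJ (Gd dz dz_pos)

section
variable {κ : Type} [Fintype κ]

/-- the part of a body below a level of a convex function -/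
theorem layer {K : Set (Eu κ)} (hK : IsCompact K) (hpos : 0 < volume K) {V : Eu κ → ℝ}
    (hVc : ContinuousOn V K) (hVcon : ConvexOn ℝ K V) {a s p : ℝ} (hs : 0 < s) (hp : 0 < p)
    (hnear : ENNReal.ofReal p * volume K ≤ volume (K ∩ {x | a - s ≤ V x ∧ V x ≤ a})) :
    ∃ (K' : Set (Eu κ)) (g : Eu κ → ℝ), Continuous g ∧ (∀ x ∈ K', 0 ≤ g x) ∧ IsCompact K' ∧
      Convex ℝ K' ∧ 0 < volume K' ∧ K' ⊆ K ∧ (∀ x ∈ K, g x = a - V x) ∧
      ENNReal.ofReal p * volume K ≤ volume K' ∧ p ≤ 1 ∧
      volume (K' ∩ {x | 2 * s ≤ g x}) ≤ ENNReal.ofReal (1 - p) * volume K' := by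
  have hfin : volume K ≠ ⊤ := hK.measure_lt_top.ne
  obtain ⟨g, hg, hgV⟩ := tietze hK hVc
  set K' : Set (Eu κ) := K ∩ {x | g x ≤ a} with hK'
  have hK'c : IsCompact K' := hK.inter_right (isClosed_le hg continuous_const)
  have hK'eq : K' = {x ∈ K | V x ≤ a} := by
    ext x
    constructor
    · rintro ⟨h1, h2⟩
      exact ⟨h1, by rw [← hgV x h1]; exact h2⟩
    · rintro ⟨h1, h2⟩
      exact ⟨h1, by show g x ≤ a; rw [hgV x h1]; exact h2⟩
  have hK'conv : Convex ℝ K' := by
    rw [hK'eq]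
    exact hVcon.convex_le a
  have hK'sub : K' ⊆ K := inter_subset_left
  have hfin' : volume K' ≠ ⊤ := hK'c.measure_lt_top.ne
  have hnear' : ENNReal.ofReal p * volume K ≤ volume (K' ∩ {x | a - s ≤ g x}) := by
    refine hnear.trans (measure_mono ?_)
    rintro x ⟨h1, h2, h3⟩
    exact ⟨⟨h1, by show g x ≤ a; rw [hgV x h1]; exact h3⟩, by
      show a - s ≤ g x
      rw [hgV x h1]; exact h2⟩
  have hlow : ENNReal.ofReal p * volume K ≤ volume K' :=
    hnear'.trans (measure_mono inter_subset_left)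
  have hpos' : 0 < volume K' :=
    lt_of_lt_of_le (ENNReal.mul_pos (ENNReal.ofReal_pos.2 hp).ne' hpos.ne') hlow
  have hp1 : p ≤ 1 := by
    have h1 : ENNReal.ofReal p * volume K ≤ 1 * volume K := by
      rw [one_mul]
      exact hlow.trans (measure_mono hK'sub)
    have h2 := (ENNReal.mul_le_mul_iff_left hpos.ne' hfin).1 h1
    rwa [← ENNReal.ofReal_one, ENNReal.ofReal_le_ofReal_iff zero_le_one] at h2
  have hq : volume (K' ∩ {x | 2 * s ≤ a - g x}) ≤ ENNReal.ofReal (1 - p) * volume K' := by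
    have hm : MeasurableSet (K' ∩ {x | a - s ≤ g x}) :=
      hK'c.measurableSet.inter (isClosed_le continuous_const hg).measurableSet
    have h1 : K' ∩ {x | 2 * s ≤ a - g x} ⊆ K' \ (K' ∩ {x | a - s ≤ g x}) := by
      rintro x ⟨h2, h3⟩
      refine ⟨h2, fun h4 => ?_⟩
      have h5 : 2 * s ≤ a - g x := h3
      have h6 : a - s ≤ g x := h4.2
      linarith
    refine (measure_mono h1).trans ?_
    rw [measure_sdiff inter_subset_left hm.nullMeasurableSet
      (ne_top_of_le_ne_top hfin' (measure_mono inter_subset_left))]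
    have h2 : ENNReal.ofReal p * volume K' ≤ volume (K' ∩ {x | a - s ≤ g x}) :=
      le_trans (by gcongr) hnear'
    calc volume K' - volume (K' ∩ {x | a - s ≤ g x}) ≤ volume K' - ENNReal.ofReal p * volume K' :=
          tsub_le_tsub_left h2 _
      _ = ENNReal.ofReal (1 - p) * volume K' := by
          rw [ENNReal.ofReal_sub _ hp.le, ENNReal.ofReal_one, ENNReal.sub_mul (fun _ _ => hfin'),
            one_mul]
  refine ⟨K', fun x => a - g x, continuous_const.sub hg, fun x hx => ?_, hK'c, hK'conv, hpos',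
    hK'sub, fun x hx => ?_, hlow, hp1, hq⟩
  · have : g x ≤ a := hx.2
    show 0 ≤ a - g x
    linarith
  · show a - g x = a - V x
    rw [hgV x hx]

end

/-- **the criterion for the covariance metric** -/
theorem gd_layer {s p : ℝ} (hs : 0 < s) (hp : 0 < p) : ∃ k : ℝ, 0 < k ∧ ∀ (n : ℕ)
    (K : Set (EuclideanSpace ℝ (Fin n))),
    IsCompact K → Convex ℝ K → (interior K).Nonempty → ∀ (V : EuclideanSpace ℝ (Fin n) → ℝ) (a : ℝ),
    ContinuousOn V K → ConvexOn ℝ K V →
    ENNReal.ofReal p * volume K ≤ volume (K ∩ {x | a - s ≤ V x ∧ V x ≤ a}) →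
    (∀ x ∈ K, ∀ y ∈ K, ∀ θ : EuclideanSpace ℝ (Fin n),
      ProbabilityTheory.variance (fun z => ⟪z, θ⟫_ℝ) ((volume K)⁻¹ • volume.restrict K) ≤ 1 →
      s ≤ ⟪x - y, θ⟫_ℝ → V ((1 / 2 : ℝ) • (x + y)) + 1 ≤ (V x + V y) / 2) → Gd k K := by
  have hd := dz_pos
  by_cases hp1 : p ≤ 1
  swap
  · refine ⟨1, one_pos, fun n K hK hKc hint V a hVc hVcon hnear _ => ?_⟩
    have hpos : 0 < volume K :=
      lt_of_lt_of_le (isOpen_interior.measure_pos volume hint) (measure_mono interior_subset)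
    obtain ⟨_, _, _, _, _, _, _, _, _, _, h, _⟩ := layer hK hpos hVc hVcon hs hp hnear
    exact absurd h hp1
  set c := Pool.Agent.Q184.NB.CC p with hc
  have hc0 : 0 < c := Pool.Agent.Q184.NB.CC_pos hp1
  set t := s * Real.sqrt c with ht
  have ht0 : 0 < t := mul_pos hs (Real.sqrt_pos.2 hc0)
  set B := 176 * (t * (1 + 2 * (2 * s) / (p * 1))) ^ 2 with hB
  have hB0 : 0 < B := by positivity
  set k := Real.sqrt (dz / B) with hk
  have hk0 : 0 < k := Real.sqrt_pos.2 (by positivity)
  have hkB : B * k ^ 2 = dz := by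
    rw [hk, Real.sq_sqrt (by positivity)]
    field_simp
  obtain ⟨k', hk', H⟩ := Pool.Agent.H59.KJ.op_def (s := Real.sqrt (1 / p)) (κ0 := k)
    (Real.sqrt_pos.2 (by positivity)) hk0
  refine ⟨k', hk', fun n K hK hKc hint V a hVc hVcon hnear hgain => ?_⟩
  have hpos : 0 < volume K :=
    lt_of_lt_of_le (isOpen_interior.measure_pos volume hint) (measure_mono interior_subset)
  have hfin : volume K ≠ ⊤ := hK.measure_lt_top.ne
  obtain ⟨K', g, hgc, hg0, hK'c, hK'conv, hpos', hsub, hgV, hlow, -, hq⟩ :=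
    layer hK hpos hVc hVcon hs hp hnear
  have hfin' : volume K' ≠ ⊤ := hK'c.measure_lt_top.ne
  have hint' : (interior K').Nonempty := Pool.Agent.R755.KF.int_of_vol hK'conv hpos'.ne'
  have hpr : IsProbabilityMeasure (un K) := un_prob hpos.ne' hfin
  obtain ⟨Bd, hBd⟩ := Pool.Agent.R755.KS.un_bdd hK
  have hmid : ∀ x ∈ K, ∀ y ∈ K, (1 / 2 : ℝ) • (x + y) ∈ K := by
    intro x hx y hy
    rw [smul_add]
    exact hKc hx hy (by norm_num) (by norm_num) (by norm_num)
  have hcon : ConcaveOn ℝ K' g := by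
    refine ⟨hK'conv, fun x hx y hy u w hu hw huw => ?_⟩
    have h1 := hVcon.2 (hsub hx) (hsub hy) hu hw huw
    have h2 := hVcon.1 (hsub hx) (hsub hy) hu hw huw
    rw [hgV _ h2, hgV _ (hsub hx), hgV _ (hsub hy)]
    simp only [smul_eq_mul] at h1 ⊢
    have h3 : u * (a - V x) + w * (a - V y) = (u + w) * a - (u * V x + w * V y) := by ring
    rw [h3, huw, one_mul]
    linarith
  have hind : ∀ S : Set (EuclideanSpace ℝ (Fin n)), MeasurableSet S →
      ∫ x, ind S x = (volume S).toReal := by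
    intro S hS
    unfold Pool.Agent.Y506.PV.ind
    rw [integral_indicator hS]
    simp [Measure.real]
  have hG : Gd k K' := by
    refine ⟨hK'c, hK'conv, hint', ?_⟩
    intro j hj T τ hτ hT v hv hvb hvd
    have hTc : Continuous T := T.continuous_of_finiteDimensional
    have hsτ : 0 < Real.sqrt τ := Real.sqrt_pos.2 hτ
    have hfc : Continuous fun x => v (T x) := hv.continuous.comp hTc
    have hcτ : 0 < Real.sqrt (c * τ) := Real.sqrt_pos.2 (by positivity)
    have hcmp : ∀ u : EuclideanSpace ℝ (Fin j), ‖u‖ = 1 →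
        VW (ind K) (fun x => ⟪T x, u⟫_ℝ) ≤ c * τ := by
      intro u hu
      have e : (fun x => ⟪T x, u⟫_ℝ) = fun x => ⟪x, LinearMap.adjoint T u⟫_ℝ := by
        funext x
        rw [LinearMap.adjoint_inner_right]
      have h1 := Pool.Agent.Q184.NB.var_cmp Pool.Agent.Y625.PV.lev hp hp1
        (Pool.Agent.Y506.PV.adm_ind K hK.measurableSet hK.isBounded hpos)
        (Pool.Agent.Y506.PV.lcn_ind hKc)
        (Pool.Agent.Y506.PV.adm_ind K' hK'c.measurableSet hK'c.isBounded hpos')
        (fun x => by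
          unfold Pool.Agent.Y506.PV.ind
          exact indicator_le_indicator_of_subset hsub (fun _ => zero_le_one) x)
        (by
          rw [hind K hK.measurableSet, hind K' hK'c.measurableSet]
          have := ENNReal.toReal_mono hfin' hlow
          rwa [ENNReal.toReal_mul, ENNReal.toReal_ofReal hp.le] at this)
        (LinearMap.adjoint T u)
      rw [← e] at h1
      exact h1.trans (mul_le_mul_of_nonneg_left (hT u hu) hc0.le)
    have hd' : ∀ x ∈ K', ∀ y ∈ K', t ≤ ‖T (x - y)‖ / Real.sqrt τ →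
        (g x + g y) / 2 + 1 ≤ g ((1 / 2 : ℝ) • (x + y)) := by
      intro x hx y hy hxy
      rw [le_div_iff₀ hsτ] at hxy
      have hz : 0 < ‖T (x - y)‖ := lt_of_lt_of_le (by positivity) hxy
      set u := ‖T (x - y)‖⁻¹ • T (x - y) with hu
      have hu1 : ‖u‖ = 1 := by
        rw [hu, norm_smul, norm_inv, norm_norm, inv_mul_cancel₀ hz.ne']
      have hin : ∀ z : EuclideanSpace ℝ (Fin n),
          ⟪z, (Real.sqrt (c * τ))⁻¹ • LinearMap.adjoint T u⟫_ℝ =
            (Real.sqrt (c * τ))⁻¹ * ⟪T z, u⟫_ℝ := by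
        intro z
        rw [inner_smul_right, LinearMap.adjoint_inner_right]
      have h1 := hgain x (hsub hx) y (hsub hy) ((Real.sqrt (c * τ))⁻¹ • LinearMap.adjoint T u) (by
        have h2 : ProbabilityTheory.variance
            (fun z => ⟪z, (Real.sqrt (c * τ))⁻¹ • LinearMap.adjoint T u⟫_ℝ) (un K) ≤ 1 := by
          simp only [hin]
          rw [Pool.Agent.R755.KS.var_cont hBd (f := fun z => (Real.sqrt (c * τ))⁻¹ * ⟪T z, u⟫_ℝ)
            (by fun_prop)]
          have h3 := hcmp u hu1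
          rw [Pool.Agent.R754.KG.VW_ind hK.measurableSet] at h3
          have h4 : (fun z => ((Real.sqrt (c * τ))⁻¹ * ⟪T z, u⟫_ℝ) ^ 2) =
              fun z => (Real.sqrt (c * τ))⁻¹ ^ 2 * ⟪T z, u⟫_ℝ ^ 2 := by
            funext z; ring
          rw [h4, integral_const_mul, integral_const_mul, mul_pow, ← mul_sub, inv_pow,
            Real.sq_sqrt (by positivity), inv_mul_le_iff₀ (by positivity), mul_one]
          exact h3
        exact h2) (by
        rw [hin, hu, inner_smul_right, real_inner_self_eq_norm_sq]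
        have h2 : (Real.sqrt (c * τ))⁻¹ * (‖T (x - y)‖⁻¹ * ‖T (x - y)‖ ^ 2) =
            ‖T (x - y)‖ / Real.sqrt (c * τ) := by
          field_simp
        rw [h2, le_div_iff₀ hcτ, Real.sqrt_mul hc0.le]
        rw [ht] at hxy
        calc s * (Real.sqrt c * Real.sqrt τ) = s * Real.sqrt c * Real.sqrt τ := by ring
          _ ≤ _ := hxy)
      rw [hgV _ (hsub hx), hgV _ (hsub hy), hgV _ (hmid x (hsub hx) y (hsub hy))]
      linarith
    have hL : ∀ x ∈ K', ∀ y ∈ K', v (T x) / k - v (T y) / k ≤ ‖T (x - y)‖ / Real.sqrt τ := by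
      intro x _ y _
      have h1 := Convex.norm_image_sub_le_of_norm_fderiv_le (𝕜 := ℝ) (f := v) (s := univ)
        (C := k / Real.sqrt τ) (x := T y) (y := T x)
        (fun z _ => hv.differentiable (by norm_num) z) (fun z _ => hvd z) convex_univ
        (mem_univ _) (mem_univ _)
      rw [Real.norm_eq_abs, ← map_sub] at h1
      have h2 := (le_abs_self _).trans h1
      rw [← sub_div, div_le_iff₀ hk0]
      calc v (T x) - v (T y) ≤ k / Real.sqrt τ * ‖T (x - y)‖ := h2
        _ = _ := by ring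
    have h1 := lipvar' (K := K') (h := g) (f := fun x => v (T x) / k)
      (ρ := fun z => ‖T z‖ / Real.sqrt τ) (fun z => by
        show ‖T ((1 / 2 : ℝ) • z)‖ / Real.sqrt τ = ‖T z‖ / Real.sqrt τ / 2
        rw [map_smul, norm_smul, Real.norm_of_nonneg (by norm_num)]
        ring) hK'c hpos' hgc hcon ht0 one_pos hd' hg0 (by positivity : 0 < 2 * s)
      hp hp1 hq (by fun_prop) hL
    have h2 : VV K' (fun x => v (T x) / k) = VV K' (fun x => v (T x)) / k ^ 2 := by
      unfold VV EV
      have e1 : (fun x => (v (T x) / k) ^ 2) = fun x => v (T x) ^ 2 / k ^ 2 := by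
        funext x; ring
      rw [e1, integral_div, integral_div]
      ring
    rw [h2, ← hB, div_le_iff₀ (by positivity), hkB] at h1
    rw [Pool.Agent.R754.KG.VW_ind hK'c.measurableSet]
    have h4 : (∫ x, v (T x) ^ 2 ∂(un K')) - (∫ x, v (T x) ∂(un K')) ^ 2 =
        VV K' fun x => v (T x) := by
      unfold VV
      rw [← int_un, ← int_un]
      rfl
    rw [h4]
    exact h1
  refine H n K' K hG hK hKc hint ?_
  have h5 : (1 / 2 : ℝ) • (K' + K) ⊆ K := by
    rintro _ ⟨_, ⟨x, hx, y, hy, rfl⟩, rfl⟩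
    exact hmid x (hsub hx) y hy
  have h6 : ENNReal.ofReal (Real.sqrt (1 / p)) ^ 2 = ENNReal.ofReal (1 / p) := by
    rw [← ENNReal.ofReal_pow (Real.sqrt_nonneg _), Real.sq_sqrt (by positivity)]
  rw [h6]
  calc volume ((1 / 2 : ℝ) • (K' + K)) ^ 2 ≤ volume K ^ 2 := by gcongr
    _ = ENNReal.ofReal (1 / p) * (ENNReal.ofReal p * volume K * volume K) := by
        rw [← mul_assoc, ← mul_assoc, ← ENNReal.ofReal_mul (by positivity),
          one_div_mul_cancel hp.ne', ENNReal.ofReal_one, one_mul, sq]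
    _ ≤ _ := by gcongr

end Pool.Agent.H59.SC
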