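import Pool.Agent.H59.SC.Cov

/-!
# Convex functions which are curved in a layer only
-/

set_option autoImplicit false

namespace Pool.Agent.H59.SC

open MeasureTheory Set Filter Topology
open scoped ENNReal InnerProductSpace Pointwise
open Pool.Agent.W695.KH
open Pool.Agent.R754.KG (un un_prob)
open Pool.Agent.Y506.PV (CcW ind)
open Pool.Agent.Y506.RG (VW)
open Pool.Agent.H59.KJ (Gd dz dz_pos)

section
variable {κ : Type} [Fintype κ] {K : Set (Eu κ)} {h : Eu κ → ℝ}

/-- midpoints: the gain doubles, or the segment leaves the layer -/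
theorem dich {ρ : Eu κ → ℝ} (hρ : ∀ z, ρ ((1 / 2 : ℝ) • z) = ρ z / 2) (hcon : ConcaveOn ℝ K h)
    {t M : ℝ} (hd : ∀ x ∈ K, ∀ y ∈ K, h x ≤ M → h y ≤ M → t ≤ ρ (x - y) →
      (h x + h y) / 2 + 1 ≤ h ((1 / 2 : ℝ) • (x + y))) :
    ∀ (k : ℕ) (x : Eu κ), x ∈ K → ∀ y ∈ K, h x ≤ M → h y ≤ M → 2 ^ k * t ≤ ρ (x - y) →
      (h x + h y) / 2 + 2 ^ k ≤ h ((1 / 2 : ℝ) • (x + y)) ∨
        ∃ β : ℝ, 0 ≤ β ∧ β ≤ 1 ∧ M < h (x + β • (y - x)) := by
  have mid : ∀ x ∈ K, ∀ y ∈ K, (1 / 2 : ℝ) • (x + y) ∈ K := by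
    intro x hx y hy
    rw [smul_add]
    exact hcon.1 hx hy (by norm_num) (by norm_num) (by norm_num)
  intro k
  induction k with
  | zero =>
    intro x hx y hy hxM hyM hxy
    rw [pow_zero, one_mul] at hxy
    rw [pow_zero]
    exact Or.inl (hd x hx y hy hxM hyM hxy)
  | succ k ih =>
    intro x hx y hy hxM hyM hxy
    set z := (1 / 2 : ℝ) • (x + y) with hz
    have hzK := mid x hx y hy
    by_cases hzM : h z ≤ M
    swap
    · right
      refine ⟨1 / 2, by norm_num, by norm_num, ?_⟩
      have e : x + (1 / 2 : ℝ) • (y - x) = z := by rw [hz]; module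
      rw [e]
      exact not_le.1 hzM
    have n1 : ρ (x - z) = ρ (x - y) / 2 := by
      have e : x - z = (1 / 2 : ℝ) • (x - y) := by rw [hz]; module
      rw [e, hρ]
    have n2 : ρ (z - y) = ρ (x - y) / 2 := by
      have e : z - y = (1 / 2 : ℝ) • (x - y) := by rw [hz]; module
      rw [e, hρ]
    rw [pow_succ] at hxy
    rcases ih x hx z hzK hxM hzM (by rw [n1]; linarith) with h1 | ⟨β, hβ0, hβ1, hβ⟩
    · rcases ih z hzK y hy hzM hyM (by rw [n2]; linarith) with h2 | ⟨β, hβ0, hβ1, hβ⟩
      · left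
        have h3 := hcon.2 (mid x hx z hzK) (mid z hzK y hy) (by norm_num : (0 : ℝ) ≤ 1 / 2)
          (by norm_num : (0 : ℝ) ≤ 1 / 2) (by norm_num)
        have e : (1 / 2 : ℝ) • ((1 / 2 : ℝ) • (x + z)) + (1 / 2 : ℝ) • ((1 / 2 : ℝ) • (z + y)) = z := by
          rw [hz]; module
        rw [e, smul_eq_mul, smul_eq_mul] at h3
        rw [pow_succ]
        linarith
      · right
        refine ⟨(1 + β) / 2, by linarith, by linarith, ?_⟩
        have e : x + ((1 + β) / 2) • (y - x) = z + β • (y - z) := by rw [hz]; module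
        rw [e]
        exact hβ
    · right
      refine ⟨β / 2, by linarith, by linarith, ?_⟩
      have e : x + (β / 2) • (y - x) = x + β • (z - x) := by rw [hz]; module
      rw [e]
      exact hβ

/-- a point of large height on the segment -/
theorem sat_aux (hcon : ConcaveOn ℝ K h) {u M : ℝ} (huM : u ≤ M) {x y : Eu κ} (hx : x ∈ K)
    (hy : y ∈ K) (hxu : h x ≤ u) (hyu : h y ≤ u) {β : ℝ} (hβ : 1 / 2 ≤ β) (hβ1 : β ≤ 1)
    (hw : M < h (x + β • (y - x))) :
    (h x + h y) / 2 + (M - u) / 2 ≤ h ((1 / 2 : ℝ) • (x + y)) := by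
  have hβ0 : 0 < β := by linarith
  have hwK : x + β • (y - x) ∈ K := by
    have := hcon.1 hx hy (by linarith : 0 ≤ 1 - β) hβ0.le (by ring)
    have e : (1 - β) • x + β • y = x + β • (y - x) := by module
    rwa [e] at this
  set α : ℝ := 1 / (2 * β) with hα
  have hα1 : α ≤ 1 := by
    rw [hα, div_le_one (by positivity)]
    linarith
  have hα2 : 1 / 2 ≤ α := by
    rw [hα, div_le_div_iff₀ (by norm_num) (by positivity)]
    linarith
  have hαβ : α * β = 1 / 2 := by
    rw [hα]
    field_simp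
  have h1 := hcon.2 hx hwK (by linarith : 0 ≤ 1 - α) (by linarith : 0 ≤ α) (by ring)
  have e : (1 - α) • x + α • (x + β • (y - x)) = (1 / 2 : ℝ) • (x + y) := by
    have : (1 - α) • x + α • (x + β • (y - x)) = x + (α * β) • (y - x) := by module
    rw [this, hαβ]
    module
  rw [e, smul_eq_mul, smul_eq_mul] at h1
  refine le_trans ?_ h1
  have h2 : α * M ≤ α * h (x + β • (y - x)) := mul_le_mul_of_nonneg_left hw.le (by linarith)
  have h3 : (α - 1 / 2) * h x ≤ (α - 1 / 2) * u := mul_le_mul_of_nonneg_left hxu (by linarith)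
  have h4 : 1 / 2 * (M - u) ≤ α * (M - u) := mul_le_mul_of_nonneg_right hα2 (by linarith)
  nlinarith

theorem sat (hcon : ConcaveOn ℝ K h) {u M : ℝ} (huM : u ≤ M) {x y : Eu κ} (hx : x ∈ K)
    (hy : y ∈ K) (hxu : h x ≤ u) (hyu : h y ≤ u) {β : ℝ} (hβ0 : 0 ≤ β) (hβ1 : β ≤ 1)
    (hw : M < h (x + β • (y - x))) :
    (h x + h y) / 2 + (M - u) / 2 ≤ h ((1 / 2 : ℝ) • (x + y)) := by
  rcases le_total (1 / 2) β with hb | hb
  · exact sat_aux hcon huM hx hy hxu hyu hb hβ1 hw
  · have e : y + (1 - β) • (x - y) = x + β • (y - x) := by module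
    have := sat_aux hcon huM hy hx hyu hxu (β := 1 - β) (by linarith) (by linarith)
      (by rw [e]; exact hw)
    rw [add_comm y x, add_comm (h y) (h x)] at this
    exact this

/-- variance over a body and over a large part of it -/
theorem var_part {D D' : Set (Eu κ)} (hD : IsCompact D) (hD' : IsCompact D') (hpos' : 0 < volume D')
    (hsub : D' ⊆ D) {ε : ℝ} (hε0 : 0 ≤ ε) (hε : volume (D \ D') ≤ ENNReal.ofReal ε * volume D)
    {f : Eu κ → ℝ} (hf : Continuous f) (hf1 : ∀ x, |f x| ≤ 1) :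
    VV D f ≤ VV D' f + 4 * ε := by
  have hpos : 0 < volume D := hpos'.trans_le (measure_mono hsub)
  have hfin : volume D ≠ ⊤ := hD.measure_lt_top.ne
  have hfin' : volume D' ≠ ⊤ := hD'.measure_lt_top.ne
  have hN : 0 < (volume D).toReal := ENNReal.toReal_pos hpos.ne' hfin
  have hN' : 0 < (volume D').toReal := ENNReal.toReal_pos hpos'.ne' hfin'
  set N := (volume D).toReal with hNd
  set N' := (volume D').toReal with hNd'
  have hle : N' ≤ N := ENNReal.toReal_mono hfin (measure_mono hsub)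
  have hint : ∀ k : Eu κ → ℝ, Continuous k → IntegrableOn k D := fun k hk =>
    hk.continuousOn.integrableOn_compact hD
  have hdm : MeasurableSet (D \ D') := hD.measurableSet.diff hD'.measurableSet
  have hdfin : volume (D \ D') ≠ ⊤ := ne_top_of_le_ne_top hfin (measure_mono sdiff_subset)
  have hdr : (volume (D \ D')).toReal ≤ ε * N := by
    have := ENNReal.toReal_mono (ENNReal.mul_ne_top ENNReal.ofReal_ne_top hfin) hε
    rwa [ENNReal.toReal_mul, ENNReal.toReal_ofReal hε0] at this
  have split : ∀ g : Eu κ → ℝ, Continuous g →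
      ∫ x in D, g x = (∫ x in D', g x) + ∫ x in D \ D', g x := by
    intro g hg
    have h1 : D = D' ∪ (D \ D') := (union_sdiff_cancel hsub).symm
    conv_lhs => rw [h1]
    exact setIntegral_union disjoint_sdiff_right hdm ((hint g hg).mono_set hsub)
      ((hint g hg).mono_set sdiff_subset)
  set b := EV D' f with hb
  have hb1 : |b| ≤ 1 := by
    rw [hb]
    unfold EV
    rw [← hNd', abs_div, abs_of_pos hN', div_le_one hN']
    have := norm_setIntegral_le_of_norm_le_const (μ := volume) (s := D') (f := f) (C := 1)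
      hfin'.lt_top (fun x _ => by rw [Real.norm_eq_abs]; exact hf1 x)
    rw [one_mul, Real.norm_eq_abs, Measure.real] at this
    exact this
  have expand : ∀ S : Set (Eu κ), IsCompact S → ∫ x in S, (f x - b) ^ 2 =
      (∫ x in S, f x ^ 2) - 2 * b * (∫ x in S, f x) + b ^ 2 * (volume S).toReal := by
    intro S hS
    have i1 : IntegrableOn (fun x => f x ^ 2) S := (hf.pow 2).continuousOn.integrableOn_compact hS
    have i2 : IntegrableOn f S := hf.continuousOn.integrableOn_compact hS
    have : (fun x => (f x - b) ^ 2) = fun x => (f x ^ 2 - 2 * b * f x) + b ^ 2 := by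
      funext x; ring
    have i3 : IntegrableOn (fun x => 2 * b * f x) S := i2.const_mul _
    have i4 : IntegrableOn (fun _ : Eu κ => b ^ 2) S :=
      continuous_const.continuousOn.integrableOn_compact hS
    have i5 : IntegrableOn (fun x => f x ^ 2 - 2 * b * f x) S := i1.sub i3
    rw [this, integral_add i5 i4, integral_sub i1 i3, integral_const_mul, setIntegral_const,
      smul_eq_mul, Measure.real]
    ring
  have h1 : N * VV D f ≤ ∫ x in D, (f x - b) ^ 2 := by
    rw [expand D hD]
    unfold VV EV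
    rw [← hNd]
    have h2 : 0 ≤ N * ((∫ x in D, f x) / N - b) ^ 2 := by positivity
    have h3 : N * ((∫ x in D, f x ^ 2) / N - ((∫ x in D, f x) / N) ^ 2) +
        N * ((∫ x in D, f x) / N - b) ^ 2 =
        (∫ x in D, f x ^ 2) - 2 * b * (∫ x in D, f x) + b ^ 2 * N := by
      field_simp
      ring
    linarith
  have h2 : ∫ x in D', (f x - b) ^ 2 = N' * VV D' f := by
    rw [expand D' hD']
    unfold VV
    rw [← hb]
    have h3 : ∫ x in D', f x = b * N' := by
      rw [hb]
      unfold EV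
      rw [← hNd']
      field_simp
    unfold EV
    rw [← hNd', h3]
    field_simp
    ring
  have hVnn : 0 ≤ VV D' f := by
    have h3 : 0 ≤ ∫ x in D', (f x - b) ^ 2 := integral_nonneg fun x => sq_nonneg _
    rw [h2] at h3
    exact nonneg_of_mul_nonneg_right h3 hN'
  have h3 : ∫ x in D \ D', (f x - b) ^ 2 ≤ 4 * (volume (D \ D')).toReal := by
    have := norm_setIntegral_le_of_norm_le_const (μ := volume) (s := D \ D')
      (f := fun x => (f x - b) ^ 2) (C := 4) hdfin.lt_top (fun x _ => by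
        rw [Real.norm_eq_abs, abs_of_nonneg (sq_nonneg _)]
        have h4 := abs_le.1 (hf1 x)
        have h5 := abs_le.1 hb1
        nlinarith)
    rw [Real.norm_eq_abs, Measure.real] at this
    exact (le_abs_self _).trans this
  rw [split _ (by fun_prop), h2] at h1
  have h4 : N' * VV D' f ≤ N * VV D' f := mul_le_mul_of_nonneg_right hle hVnn
  have h5 : N * VV D f ≤ N * (VV D' f + 4 * ε) := by nlinarith
  exact le_of_mul_le_mul_left h5 hN

/-- the product of the exponential moments of `f` and `-f` on a layer -/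
theorem prod_lay {ρ : Eu κ → ℝ} (hρ : ∀ z, ρ ((1 / 2 : ℝ) • z) = ρ z / 2)
    (hK : IsCompact K) (hc : Continuous h) (hcon : ConcaveOn ℝ K h) (h0 : ∀ x ∈ K, 0 ≤ h x)
    {t u G : ℝ} (hG : 0 ≤ G) {k : ℕ} (hkG : G ≤ 2 ^ k)
    (hd : ∀ x ∈ K, ∀ y ∈ K, h x ≤ u + 2 * G → h y ≤ u + 2 * G → t ≤ ρ (x - y) →
      (h x + h y) / 2 + 1 ≤ h ((1 / 2 : ℝ) • (x + y))) {l B : ℝ} (hl : 0 < l)
    (hexp : ∫ x in K, Real.exp (l * h x) ≤ B * (volume K).toReal) {f : Eu κ → ℝ}
    (hfc : Continuous f) (hf1 : ∀ x, |f x| ≤ 1) {c : ℝ} (hc0 : 0 ≤ c)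
    (hL : ∀ x ∈ K, ∀ y ∈ K, f x - f y ≤ c * ρ (x - y)) {σ : ℝ} (hσ : 0 < σ) (hσG : σ ≤ l * G)
    (hσc : σ * (c * (2 ^ k * t)) ≤ 1) :
    (∫ x in K ∩ {x | h x ≤ u}, Real.exp (σ * f x)) *
      (∫ x in K ∩ {x | h x ≤ u}, Real.exp (-(σ * f x))) ≤
      Real.exp 1 * (B * (volume K).toReal) ^ 2 := by
  set S : Set (Eu κ) := K ∩ {x | h x ≤ u} with hS
  have hSc : IsCompact S := hK.inter_right (isClosed_le hc continuous_const)
  have hSK : S ⊆ K := inter_subset_left
  have hKm := hK.measurableSet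
  have hSm := hSc.measurableSet
  have key := Pool.Agent.H212R2.KLS.PL (volume : Measure (Eu κ)) (1 / 2) (by norm_num) (by norm_num)
    (S.indicator fun x => ENNReal.ofReal (Real.exp (σ * f x + l * h x)))
    (S.indicator fun x => ENNReal.ofReal (Real.exp (-(σ * f x) + l * h x)))
    (K.indicator fun x => ENNReal.ofReal (Real.exp (1 / 2 + l * h x)))
    ((by fun_prop : Measurable fun x => ENNReal.ofReal (Real.exp (σ * f x + l * h x))).indicator hSm)
    ((by fun_prop : Measurable fun x => ENNReal.ofReal (Real.exp (-(σ * f x) + l * h x))).indicator hSm)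
    ((by fun_prop : Measurable fun x => ENNReal.ofReal (Real.exp (1 / 2 + l * h x))).indicator hKm)
    (fun x y => by
      have e12 : (1 - 1 / 2 : ℝ) = 1 / 2 := by norm_num
      rw [e12]
      by_cases hx : x ∈ S
      · by_cases hy : y ∈ S
        · have hz : (1 / 2 : ℝ) • x + (1 / 2 : ℝ) • y ∈ K :=
            hcon.1 (hSK hx) (hSK hy) (by norm_num) (by norm_num) (by norm_num)
          rw [indicator_of_mem hx, indicator_of_mem hy, indicator_of_mem hz,
            ENNReal.ofReal_rpow_of_pos (Real.exp_pos _), ENNReal.ofReal_rpow_of_pos (Real.exp_pos _),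
            ← ENNReal.ofReal_mul (by positivity), ← Real.exp_mul, ← Real.exp_mul, ← Real.exp_add]
          apply ENNReal.ofReal_le_ofReal
          apply Real.exp_le_exp.2
          have hxu : h x ≤ u := hx.2
          have hyu : h y ≤ u := hy.2
          rcases le_or_gt (2 ^ k * t) (ρ (x - y)) with h1 | h1
          · have h2 : (h x + h y) / 2 + G ≤ h ((1 / 2 : ℝ) • (x + y)) := by
              rcases dich hρ hcon hd k x (hSK hx) y (hSK hy) (by linarith) (by linarith) h1 with
                h3 | ⟨β, hβ0, hβ1, hβ⟩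
              · linarith
              · have := sat hcon (by linarith : u ≤ u + 2 * G) (hSK hx) (hSK hy) hxu hyu hβ0 hβ1 hβ
                linarith
            rw [smul_add] at h2
            have h3 := mul_le_mul_of_nonneg_left h2 hl.le
            have h4 : f x - f y ≤ 2 := by
              have := abs_le.1 (hf1 x)
              have := abs_le.1 (hf1 y)
              linarith
            have h5 := mul_le_mul_of_nonneg_left h4 hσ.le
            nlinarith
          · have h2 := hcon.2 (hSK hx) (hSK hy) (by norm_num : (0 : ℝ) ≤ 1 / 2)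
              (by norm_num : (0 : ℝ) ≤ 1 / 2) (by norm_num)
            rw [smul_eq_mul, smul_eq_mul] at h2
            have h3 := mul_le_mul_of_nonneg_left h2 hl.le
            have h4 : σ * (f x - f y) ≤ 1 := by
              calc σ * (f x - f y) ≤ σ * (c * ρ (x - y)) :=
                    mul_le_mul_of_nonneg_left (hL x (hSK hx) y (hSK hy)) hσ.le
                _ ≤ σ * (c * (2 ^ k * t)) := by gcongr
                _ ≤ 1 := hσc
            nlinarith
        · rw [indicator_of_notMem hy, ENNReal.zero_rpow_of_pos (by norm_num), mul_zero]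
          exact bot_le
      · rw [indicator_of_notMem hx, ENNReal.zero_rpow_of_pos (by norm_num), zero_mul]
        exact bot_le)
  have e12 : (1 - 1 / 2 : ℝ) = 1 / 2 := by norm_num
  rw [e12, lintegral_indicator hSm, lintegral_indicator hSm, lintegral_indicator hKm] at key
  have cvt : ∀ (A : Set (Eu κ)) (g : Eu κ → ℝ), IsCompact A → Continuous g →
      ∫⁻ x in A, ENNReal.ofReal (Real.exp (g x)) = ENNReal.ofReal (∫ x in A, Real.exp (g x)) := by
    intro A g hA hg
    rw [ofReal_integral_eq_lintegral_ofReal]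
    · exact (Real.continuous_exp.comp hg).continuousOn.integrableOn_compact hA
    · exact Eventually.of_forall fun x => (Real.exp_pos _).le
  rw [cvt S _ hSc (by fun_prop), cvt S _ hSc (by fun_prop), cvt K _ hK (by fun_prop)] at key
  set a := ∫ x in S, Real.exp (σ * f x + l * h x) with ha
  set b := ∫ x in S, Real.exp (-(σ * f x) + l * h x) with hb
  set d := ∫ x in K, Real.exp (1 / 2 + l * h x) with hdd
  have ha0 : 0 ≤ a := integral_nonneg fun x => (Real.exp_pos _).le
  have hb0 : 0 ≤ b := integral_nonneg fun x => (Real.exp_pos _).le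
  have hd0 : 0 ≤ d := integral_nonneg fun x => (Real.exp_pos _).le
  rw [ENNReal.ofReal_rpow_of_nonneg ha0 (by norm_num), ENNReal.ofReal_rpow_of_nonneg hb0 (by norm_num),
    ← ENNReal.ofReal_mul (by positivity), ENNReal.ofReal_le_ofReal_iff hd0, ← Real.mul_rpow ha0 hb0,
    ← Real.sqrt_eq_rpow] at key
  have h5 : a * b ≤ d ^ 2 := by
    have := pow_le_pow_left₀ (Real.sqrt_nonneg _) key 2
    rwa [Real.sq_sqrt (mul_nonneg ha0 hb0)] at this
  have h6 : d = Real.exp (1 / 2) * ∫ x in K, Real.exp (l * h x) := by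
    rw [hdd, ← integral_const_mul]
    refine integral_congr_ae (Eventually.of_forall fun x => ?_)
    show Real.exp (1 / 2 + l * h x) = Real.exp (1 / 2) * Real.exp (l * h x)
    rw [Real.exp_add]
  have h7 : 0 ≤ ∫ x in K, Real.exp (l * h x) := integral_nonneg fun x => (Real.exp_pos _).le
  have h8 : d ^ 2 ≤ Real.exp 1 * (B * (volume K).toReal) ^ 2 := by
    rw [h6, mul_pow]
    have e : Real.exp (1 / 2) ^ 2 = Real.exp 1 := by
      rw [← Real.exp_nat_mul]
      norm_num
    rw [e]
    gcongr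
  have mono : ∀ g : Eu κ → ℝ, Continuous g → ∫ x in S, Real.exp (g x) ≤
      ∫ x in S, Real.exp (g x + l * h x) := by
    intro g hg
    refine setIntegral_mono_on ((Real.continuous_exp.comp hg).continuousOn.integrableOn_compact hSc)
      ((Real.continuous_exp.comp (hg.add (continuous_const.mul hc))).continuousOn.integrableOn_compact
        hSc) hSm fun x hx => ?_
    apply Real.exp_le_exp.2
    have := mul_nonneg hl.le (h0 x (hSK hx))
    linarith
  have m1 := mono (fun x => σ * f x) (by fun_prop)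
  have m2 := mono (fun x => -(σ * f x)) (by fun_prop)
  have n1 : 0 ≤ ∫ x in S, Real.exp (-(σ * f x)) := integral_nonneg fun x => (Real.exp_pos _).le
  calc (∫ x in S, Real.exp (σ * f x)) * (∫ x in S, Real.exp (-(σ * f x))) ≤ a * b :=
        mul_le_mul m1 m2 n1 ha0
    _ ≤ _ := h5.trans h8

end

/-- **convex functions which are curved in a layer** -/
theorem gd_lay {s p : ℝ} (hs : 0 < s) (hp : 0 < p) : ∃ M k : ℝ, 0 < k ∧ ∀ (n : ℕ)
    (K : Set (EuclideanSpace ℝ (Fin n))),
    IsCompact K → Convex ℝ K → (interior K).Nonempty → ∀ (V : EuclideanSpace ℝ (Fin n) → ℝ) (a : ℝ),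
    ContinuousOn V K → ConvexOn ℝ K V →
    ENNReal.ofReal p * volume K ≤ volume (K ∩ {x | a - s ≤ V x ∧ V x ≤ a}) →
    (∀ x ∈ K, ∀ y ∈ K, a - M ≤ V x → V x ≤ a → a - M ≤ V y → V y ≤ a →
      ∀ θ : EuclideanSpace ℝ (Fin n),
      ProbabilityTheory.variance (fun z => ⟪z, θ⟫_ℝ) ((volume K)⁻¹ • volume.restrict K) ≤ 1 →
      s ≤ ⟪x - y, θ⟫_ℝ → V ((1 / 2 : ℝ) • (x + y)) + 1 ≤ (V x + V y) / 2) → Gd k K := by
  have hd := dz_pos
  by_cases hp1 : p ≤ 1
  swap
  · refine ⟨1, 1, one_pos, fun n K hK hKc hint V a hVc hVcon hnear _ => ?_⟩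
    have hpos : 0 < volume K :=
      lt_of_lt_of_le (isOpen_interior.measure_pos volume hint) (measure_mono interior_subset)
    obtain ⟨_, _, _, _, _, _, _, _, _, _, h, _⟩ := layer hK hpos hVc hVcon hs hp hnear
    exact absurd h hp1
  set c := Pool.Agent.Q184.NB.CC p with hc
  have hc0 : 0 < c := Pool.Agent.Q184.NB.CC_pos hp1
  set t := s * Real.sqrt c with ht
  have ht0 : 0 < t := mul_pos hs (Real.sqrt_pos.2 hc0)
  obtain ⟨η, hη0, hη1, hη2⟩ : ∃ η : ℝ, 0 < η ∧ η ≤ 1 / 2 ∧ 4 * η ≤ dz / 2 :=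
    ⟨min (dz / 8) (1 / 2), lt_min (by positivity) (by norm_num), min_le_right _ _, by
      have := min_le_left (dz / 8) (1 / 2)
      linarith⟩
  set l := p / (4 * s) with hl
  have hl0 : 0 < l := by positivity
  set u := 2 * s / p * (1 + Real.log (1 / η)) with hu
  have hlog : 0 ≤ Real.log (1 / η) := Real.log_nonneg (by
    rw [le_div_iff₀ hη0]
    linarith)
  have hu0 : 0 < u := by positivity
  set σ := Real.sqrt (1408 / dz) with hσ
  have hσ0 : 0 < σ := Real.sqrt_pos.2 (by positivity)
  have hσ2 : σ ^ 2 = 1408 / dz := Real.sq_sqrt (by positivity)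
  set G := σ / l with hG
  have hG0 : 0 < G := by positivity
  obtain ⟨j0, hj0⟩ := pow_unbounded_of_one_lt G (one_lt_two (α := ℝ))
  set k := 1 / (σ * (2 ^ j0 * t)) with hk
  have hk0 : 0 < k := by positivity
  obtain ⟨k', hk', H⟩ := Pool.Agent.H59.KJ.op_def (s := Real.sqrt (1 / p)) (κ0 := k)
    (Real.sqrt_pos.2 (by positivity)) hk0
  refine ⟨u + 2 * G, k', hk', fun n K hK hKc hint V a hVc hVcon hnear hgain => ?_⟩
  have hpos : 0 < volume K :=
    lt_of_lt_of_le (isOpen_interior.measure_pos volume hint) (measure_mono interior_subset)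
  have hfin : volume K ≠ ⊤ := hK.measure_lt_top.ne
  obtain ⟨K', g, hgc, hg0, hK'c, hK'conv, hpos', hsub, hgV, hlow, -, hq⟩ :=
    layer hK hpos hVc hVcon hs hp hnear
  have hfin' : volume K' ≠ ⊤ := hK'c.measure_lt_top.ne
  have hN' : 0 < (volume K').toReal := ENNReal.toReal_pos hpos'.ne' hfin'
  have hint' : (interior K').Nonempty := Pool.Agent.R755.KF.int_of_vol hK'conv hpos'.ne'
  have hpr : IsProbabilityMeasure (un K) := un_prob hpos.ne' hfin
  obtain ⟨Bd, hBd⟩ := Pool.Agent.R755.KS.un_bdd hK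
  have hmid : ∀ x ∈ K, ∀ y ∈ K, (1 / 2 : ℝ) • (x + y) ∈ K := by
    intro x hx y hy
    rw [smul_add]
    exact hKc hx hy (by norm_num) (by norm_num) (by norm_num)
  have hcon : ConcaveOn ℝ K' g := by
    refine ⟨hK'conv, fun x hx y hy u w hu hw huw => ?_⟩
    have h1 := hVcon.2 (hsub hx) (hsub hy) hu hw huw
    have h2 := hVcon.1 (hsub hx) (hsub hy) hu hw huw
    rw [hgV _ h2, hgV _ (hsub hx), hgV _ (hsub hy)]
    simp only [smul_eq_mul] at h1 ⊢
    have h3 : u * (a - V x) + w * (a - V y) = (u + w) * a - (u * V x + w * V y) := by ring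
    rw [h3, huw, one_mul]
    linarith
  have hind : ∀ S : Set (EuclideanSpace ℝ (Fin n)), MeasurableSet S →
      ∫ x, ind S x = (volume S).toReal := by
    intro S hS
    unfold Pool.Agent.Y506.PV.ind
    rw [integral_indicator hS]
    simp [Measure.real]
  -- the levels of `g`
  have hlev := fun r hr => level hK'c hpos' hgc hcon hg0 (by positivity : 0 < 2 * s) hp hp1 hq r hr
  have hexp := expo (M := Real.exp 1) hK'c hgc hg0 (Real.exp_pos 1).le hl0 (fun r hr => by
    have e : 2 * l * r = p / (2 * s) * r := by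
      rw [hl]
      field_simp
      ring
    rw [e]
    exact hlev r hr)
  set S : Set (EuclideanSpace ℝ (Fin n)) := K' ∩ {x | g x ≤ u} with hS
  have hSc : IsCompact S := hK'c.inter_right (isClosed_le hgc continuous_const)
  have hSK : S ⊆ K' := inter_subset_left
  have hSd : volume (K' \ S) ≤ ENNReal.ofReal η * volume K' := by
    refine (measure_mono (?_ : K' \ S ⊆ K' ∩ {x | u ≤ g x})).trans ((hlev u hu0).trans ?_)
    · rintro x ⟨h1, h2⟩
      refine ⟨h1, ?_⟩
      by_contra h3
      have h4 : ¬ u ≤ g x := h3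
      exact h2 ⟨h1, (not_le.1 h4).le⟩
    · refine mul_le_mul_left (ENNReal.ofReal_le_ofReal (le_of_eq ?_)) _
      have e : p / (2 * s) * u = 1 + Real.log (1 / η) := by
        rw [hu]
        field_simp
      rw [e, ← Real.exp_add, neg_add, ← add_assoc, add_neg_cancel, zero_add, one_div, Real.log_inv,
        neg_neg, Real.exp_log hη0]
  have hSfin : volume S ≠ ⊤ := hSc.measure_lt_top.ne
  have hSv : (volume K').toReal ≤ 2 * (volume S).toReal := by
    have h1 : (volume (K' \ S)).toReal ≤ η * (volume K').toReal := by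
      have := ENNReal.toReal_mono (ENNReal.mul_ne_top ENNReal.ofReal_ne_top hfin') hSd
      rwa [ENNReal.toReal_mul, ENNReal.toReal_ofReal hη0.le] at this
    have h2 : (volume (K' \ S)).toReal = (volume K').toReal - (volume S).toReal := by
      rw [measure_sdiff hSK hSc.measurableSet.nullMeasurableSet hSfin,
        ENNReal.toReal_sub_of_le (measure_mono hSK) hfin']
    rw [h2] at h1
    nlinarith
  have hSpos : 0 < volume S := (ENNReal.toReal_pos_iff.1 (by linarith : 0 < (volume S).toReal)).1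
  have hGd : Gd k K' := by
    refine ⟨hK'c, hK'conv, hint', ?_⟩
    intro j hj T τ hτ hT v hv hvb hvd
    have hTc : Continuous T := T.continuous_of_finiteDimensional
    have hsτ : 0 < Real.sqrt τ := Real.sqrt_pos.2 hτ
    have hfc : Continuous fun x => v (T x) := hv.continuous.comp hTc
    have hcτ : 0 < Real.sqrt (c * τ) := Real.sqrt_pos.2 (by positivity)
    have hcmp : ∀ u : EuclideanSpace ℝ (Fin j), ‖u‖ = 1 →
        VW (ind K) (fun x => ⟪T x, u⟫_ℝ) ≤ c * τ := by
      intro u hu
      have e : (fun x => ⟪T x, u⟫_ℝ) = fun x => ⟪x, LinearMap.adjoint T u⟫_ℝ := by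
        funext x
        rw [LinearMap.adjoint_inner_right]
      have h1 := Pool.Agent.Q184.NB.var_cmp Pool.Agent.Y625.PV.lev hp hp1
        (Pool.Agent.Y506.PV.adm_ind K hK.measurableSet hK.isBounded hpos)
        (Pool.Agent.Y506.PV.lcn_ind hKc)
        (Pool.Agent.Y506.PV.adm_ind K' hK'c.measurableSet hK'c.isBounded hpos')
        (fun x => by
          unfold Pool.Agent.Y506.PV.ind
          exact indicator_le_indicator_of_subset hsub (fun _ => zero_le_one) x)
        (by
          rw [hind K hK.measurableSet, hind K' hK'c.measurableSet]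
          have := ENNReal.toReal_mono hfin' hlow
          rwa [ENNReal.toReal_mul, ENNReal.toReal_ofReal hp.le] at this)
        (LinearMap.adjoint T u)
      rw [← e] at h1
      exact h1.trans (mul_le_mul_of_nonneg_left (hT u hu) hc0.le)
    have hd' : ∀ x ∈ K', ∀ y ∈ K', g x ≤ u + 2 * G → g y ≤ u + 2 * G →
        t ≤ ‖T (x - y)‖ / Real.sqrt τ → (g x + g y) / 2 + 1 ≤ g ((1 / 2 : ℝ) • (x + y)) := by
      intro x hx y hy hgx hgy hxy
      rw [le_div_iff₀ hsτ] at hxy
      have hz : 0 < ‖T (x - y)‖ := lt_of_lt_of_le (by positivity) hxy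
      set b := ‖T (x - y)‖⁻¹ • T (x - y) with hb
      have hb1 : ‖b‖ = 1 := by
        rw [hb, norm_smul, norm_inv, norm_norm, inv_mul_cancel₀ hz.ne']
      have hin : ∀ z : EuclideanSpace ℝ (Fin n),
          ⟪z, (Real.sqrt (c * τ))⁻¹ • LinearMap.adjoint T b⟫_ℝ =
            (Real.sqrt (c * τ))⁻¹ * ⟪T z, b⟫_ℝ := by
        intro z
        rw [inner_smul_right, LinearMap.adjoint_inner_right]
      have q1 := hg0 x hx
      have q2 := hg0 y hy
      rw [hgV _ (hsub hx)] at hgx q1
      rw [hgV _ (hsub hy)] at hgy q2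
      have h1 := hgain x (hsub hx) y (hsub hy) (by linarith) (by linarith) (by linarith)
        (by linarith) ((Real.sqrt (c * τ))⁻¹ • LinearMap.adjoint T b) (by
        have h2 : ProbabilityTheory.variance
            (fun z => ⟪z, (Real.sqrt (c * τ))⁻¹ • LinearMap.adjoint T b⟫_ℝ) (un K) ≤ 1 := by
          simp only [hin]
          rw [Pool.Agent.R755.KS.var_cont hBd (f := fun z => (Real.sqrt (c * τ))⁻¹ * ⟪T z, b⟫_ℝ)
            (by fun_prop)]
          have h3 := hcmp b hb1
          rw [Pool.Agent.R754.KG.VW_ind hK.measurableSet] at h3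
          have h4 : (fun z => ((Real.sqrt (c * τ))⁻¹ * ⟪T z, b⟫_ℝ) ^ 2) =
              fun z => (Real.sqrt (c * τ))⁻¹ ^ 2 * ⟪T z, b⟫_ℝ ^ 2 := by
            funext z; ring
          rw [h4, integral_const_mul, integral_const_mul, mul_pow, ← mul_sub, inv_pow,
            Real.sq_sqrt (by positivity), inv_mul_le_iff₀ (by positivity), mul_one]
          exact h3
        exact h2) (by
        rw [hin, hb, inner_smul_right, real_inner_self_eq_norm_sq]
        have h2 : (Real.sqrt (c * τ))⁻¹ * (‖T (x - y)‖⁻¹ * ‖T (x - y)‖ ^ 2) =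
            ‖T (x - y)‖ / Real.sqrt (c * τ) := by
          field_simp
        rw [h2, le_div_iff₀ hcτ, Real.sqrt_mul hc0.le]
        rw [ht] at hxy
        calc s * (Real.sqrt c * Real.sqrt τ) = s * Real.sqrt c * Real.sqrt τ := by ring
          _ ≤ _ := hxy)
      rw [hgV _ (hsub hx), hgV _ (hsub hy), hgV _ (hmid x (hsub hx) y (hsub hy))]
      linarith
    have hL : ∀ x ∈ K', ∀ y ∈ K', v (T x) - v (T y) ≤ k * (‖T (x - y)‖ / Real.sqrt τ) := by
      intro x _ y _
      have h1 := Convex.norm_image_sub_le_of_norm_fderiv_le (𝕜 := ℝ) (f := v) (s := univ)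
        (C := k / Real.sqrt τ) (x := T y) (y := T x)
        (fun z _ => hv.differentiable (by norm_num) z) (fun z _ => hvd z) convex_univ
        (mem_univ _) (mem_univ _)
      rw [Real.norm_eq_abs, ← map_sub] at h1
      have h2 := (le_abs_self _).trans h1
      calc v (T x) - v (T y) ≤ k / Real.sqrt τ * ‖T (x - y)‖ := h2
        _ = _ := by ring
    have h1 := prod_lay (K := K') (h := g) (f := fun x => v (T x)) (t := t) (u := u) (G := G)
      (k := j0) (l := l) (B := 1 + Real.exp 1) (c := k) (σ := σ)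
      (ρ := fun z => ‖T z‖ / Real.sqrt τ) (fun z => by
        show ‖T ((1 / 2 : ℝ) • z)‖ / Real.sqrt τ = ‖T z‖ / Real.sqrt τ / 2
        rw [map_smul, norm_smul, Real.norm_of_nonneg (by norm_num)]
        ring) hK'c hgc hcon hg0 hG0.le hj0.le hd' hl0 hexp hfc (fun x => hvb (T x)) hk0.le hL hσ0
      (le_of_eq (by rw [hG]; field_simp)) (le_of_eq (by rw [hk]; field_simp))
    have h2 := var_of_exp (K := S) (g := fun x => σ * v (T x))
      (C := 4 * (Real.exp 1 * (1 + Real.exp 1) ^ 2)) hSc hSpos (by fun_prop) (by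
        refine h1.trans ?_
        have h3 : ((1 + Real.exp 1) * (volume K').toReal) ^ 2 ≤
            ((1 + Real.exp 1) * (2 * (volume S).toReal)) ^ 2 := by
          have := Real.exp_pos 1
          gcongr
        calc Real.exp 1 * ((1 + Real.exp 1) * (volume K').toReal) ^ 2 ≤
            Real.exp 1 * ((1 + Real.exp 1) * (2 * (volume S).toReal)) ^ 2 :=
              mul_le_mul_of_nonneg_left h3 (Real.exp_pos 1).le
          _ = _ := by ring)
    have he : 4 * (4 * (Real.exp 1 * (1 + Real.exp 1) ^ 2)) ≤ 704 := by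
      have := Real.exp_one_lt_d9
      have := Real.exp_pos 1
      have h4 : Real.exp 1 ≤ 2.72 := by linarith
      have h5 : (1 + Real.exp 1) ^ 2 ≤ 3.72 ^ 2 := pow_le_pow_left₀ (by positivity) (by linarith) 2
      calc 4 * (4 * (Real.exp 1 * (1 + Real.exp 1) ^ 2)) ≤ 4 * (4 * (2.72 * 3.72 ^ 2)) := by gcongr
        _ ≤ 704 := by norm_num
    have h3 : VV S (fun x => σ * v (T x)) = σ ^ 2 * VV S (fun x => v (T x)) := by
      unfold VV EV
      have e1 : (fun x => (σ * v (T x)) ^ 2) = fun x => σ ^ 2 * v (T x) ^ 2 := by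
        funext x; ring
      rw [e1, integral_const_mul, integral_const_mul]
      ring
    rw [h3, hσ2] at h2
    have h5 : VV S (fun x => v (T x)) ≤ dz / 2 := by
      have h6 : 1408 / dz * VV S (fun x => v (T x)) ≤ 704 := h2.trans he
      rw [div_mul_eq_mul_div, div_le_iff₀ hd] at h6
      linarith
    have h6 := var_part hK'c hSc hSpos hSK hη0.le hSd hfc (fun x => hvb (T x))
    rw [Pool.Agent.R754.KG.VW_ind hK'c.measurableSet]
    have h4 : (∫ x, v (T x) ^ 2 ∂(un K')) - (∫ x, v (T x) ∂(un K')) ^ 2 =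
        VV K' fun x => v (T x) := by
      unfold VV
      rw [← int_un, ← int_un]
      rfl
    rw [h4]
    linarith
  refine H n K' K hGd hK hKc hint ?_
  have h5 : (1 / 2 : ℝ) • (K' + K) ⊆ K := by
    rintro _ ⟨_, ⟨x, hx, y, hy, rfl⟩, rfl⟩
    exact hmid x (hsub hx) y hy
  have h6 : ENNReal.ofReal (Real.sqrt (1 / p)) ^ 2 = ENNReal.ofReal (1 / p) := by
    rw [← ENNReal.ofReal_pow (Real.sqrt_nonneg _), Real.sq_sqrt (by positivity)]
  rw [h6]
  calc volume ((1 / 2 : ℝ) • (K' + K)) ^ 2 ≤ volume K ^ 2 := by gcongr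
    _ = ENNReal.ofReal (1 / p) * (ENNReal.ofReal p * volume K * volume K) := by
        rw [← mul_assoc, ← mul_assoc, ← ENNReal.ofReal_mul (by positivity),
          one_div_mul_cancel hp.ne', ENNReal.ofReal_one, one_mul, sq]
    _ ≤ _ := by gcongr

end Pool.Agent.H59.SC
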