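import Pool.Agent.H59.SC.Pass
import Pool.Agent.H59.L.T97aac3.Q188.SB.Ex

/-!
# Hyperplane cuts of bodies with a convex function with midpoint defect
-/

set_option autoImplicit false

namespace Pool.Agent.H59.SC

open MeasureTheory Set Filter Topology
open scoped ENNReal InnerProductSpace Pointwise
open Pool.Agent.W695.KH

variable {κ : Type} [Fintype κ]

theorem tietze {K : Set (Eu κ)} (hK : IsCompact K) {V : Eu κ → ℝ} (hV : ContinuousOn V K) :
    ∃ g : Eu κ → ℝ, Continuous g ∧ ∀ x ∈ K, g x = V x := by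
  obtain ⟨g, hg⟩ := ContinuousMap.exists_restrict_eq hK.isClosed
    (⟨K.domRestrict V, continuousOn_iff_continuous_domRestrict.1 hV⟩ : C(K, ℝ))
  refine ⟨g, g.continuous, fun x hx => ?_⟩
  have := congrArg (fun k : C(K, ℝ) => k ⟨x, hx⟩) hg
  exact this

/-- the general criterion -/
theorem main : ∃ C : ℝ, 0 < C ∧ ∀ (κ : Type) [Fintype κ] [Nonempty κ]
    (K : Set (EuclideanSpace ℝ κ)), IsCompact K → Convex ℝ K → (interior K).Nonempty →
    (∀ x ∈ K, -x ∈ K) → ∀ (V : EuclideanSpace ℝ κ → ℝ) (t δ a s p lam : ℝ), 0 < t → 0 < δ →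
    0 < s → 0 < p → 0 < lam → ContinuousOn V K → ConvexOn ℝ K V →
    (∀ x ∈ K, ∀ y ∈ K, t ≤ ‖x - y‖ → V ((1 / 2 : ℝ) • (x + y)) + δ ≤ (V x + V y) / 2) →
    volume (K ∩ {x | a < V x}) ≤ ENNReal.ofReal (1 / 40000) * volume K →
    ENNReal.ofReal p * volume K ≤ volume (K ∩ {x | a - s ≤ V x ∧ V x ≤ a}) →
    (∃ θ : Eu κ, ‖θ‖ = 1 ∧ lam ≤ EV K (fun x => ⟪θ, x⟫_ℝ ^ 2)) →
    ∃ b : EuclideanSpace ℝ κ, b ≠ 0 ∧ ∀ E : Set (EuclideanSpace ℝ κ), MeasurableSet E →
      E ⊆ interior K → volume E = volume (interior K) / 2 →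
      sec (interior K) b ≤ ENNReal.ofReal (C * (t / Real.sqrt lam * (1 + s / (p * δ)))) *
        per E (interior K) := by
  obtain ⟨C, hC, H⟩ := hyp_sub
  refine ⟨C * 56, by positivity, ?_⟩
  intro κ _ _ K hK hKc hint hsym V t δ a s p lam ht hδ hs hp hlam hVc hVcon hd habove hnear hth
  have hcl : closure (interior K) = K := by
    rw [hKc.closure_interior_eq_closure_of_nonempty_interior hint, hK.isClosed.closure_eq]
  have hsi : ∀ x ∈ interior K, -x ∈ interior K := by
    intro x hx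
    have hop : IsOpen ((fun y => -y) ⁻¹' interior K) := isOpen_interior.preimage continuous_neg
    have hsub : (fun y => -y) ⁻¹' interior K ⊆ K := by
      intro y hy
      have := hsym _ (interior_subset hy)
      rwa [neg_neg] at this
    exact interior_maximal hsub hop (by simpa using hx)
  have h0 : (0 : Eu κ) ∈ interior K := by
    obtain ⟨x, hx⟩ := hint
    have h := hKc.interior hx (hsi x hx) (by norm_num : (0 : ℝ) ≤ 1 / 2)
      (by norm_num : (0 : ℝ) ≤ 1 / 2) (by norm_num)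
    rwa [smul_neg, add_neg_cancel] at h
  have hbd : Bornology.IsBounded (interior K) := hK.isBounded.subset interior_subset
  have hKae : (K : Set (Eu κ)) =ᵐ[volume] interior K := by
    have := Pool.Agent.W932.KH.closure_ae (κ := κ) isOpen_interior hKc.interior
    rwa [hcl] at this
  have hfin : volume K ≠ ⊤ := hK.measure_lt_top.ne
  have hpos : 0 < volume K :=
    lt_of_lt_of_le (isOpen_interior.measure_pos volume hint) (measure_mono interior_subset)
  obtain ⟨g, hg, hgV⟩ := tietze hK hVc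
  set K' : Set (Eu κ) := K ∩ {x | g x ≤ a} with hK'
  have hK'c : IsCompact K' := hK.inter_right (isClosed_le hg continuous_const)
  have hK'eq : K' = {x ∈ K | V x ≤ a} := by
    ext x
    constructor
    · rintro ⟨h1, h2⟩
      exact ⟨h1, by rw [← hgV x h1]; exact h2⟩
    · rintro ⟨h1, h2⟩
      exact ⟨h1, by show g x ≤ a; rw [hgV x h1]; exact h2⟩
  have hK'conv : Convex ℝ K' := by
    rw [hK'eq]
    exact hVcon.convex_le a
  have hK'sub : K' ⊆ K := inter_subset_left
  have hdiff : K \ K' = K ∩ {x | a < V x} := by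
    rw [hK'eq]
    ext x
    constructor
    · rintro ⟨h1, h2⟩
      refine ⟨h1, ?_⟩
      by_contra h3
      exact h2 ⟨h1, not_lt.1 h3⟩
    · rintro ⟨h1, h2⟩
      exact ⟨h1, fun h3 => absurd h3.2 (not_le.2 h2)⟩
  have hvol : volume (K \ K') ≤ ENNReal.ofReal (1 / 40000) * volume K := by
    rw [hdiff]; exact habove
  have hfin' : volume K' ≠ ⊤ := hK'c.measure_lt_top.ne
  have hpos' : 0 < volume K' := by
    by_contra hcon
    have hz : volume K' = 0 := le_antisymm (not_lt.1 hcon) bot_le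
    have h1 : volume K ≤ volume (K \ K') + volume K' := by
      calc volume K ≤ volume ((K \ K') ∪ K') := measure_mono (by
            rw [sdiff_union_self]; exact subset_union_left)
        _ ≤ _ := measure_union_le _ _
    rw [hz, add_zero] at h1
    have h2 := ENNReal.toReal_mono (ENNReal.mul_ne_top ENNReal.ofReal_ne_top hfin) (h1.trans hvol)
    rw [ENNReal.toReal_mul, ENNReal.toReal_ofReal (by norm_num)] at h2
    have h3 := ENNReal.toReal_pos hpos.ne' hfin
    linarith
  have hnear' : ENNReal.ofReal p * volume K ≤ volume (K' ∩ {x | a - s ≤ g x}) := by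
    refine hnear.trans (measure_mono ?_)
    rintro x ⟨h1, h2, h3⟩
    exact ⟨⟨h1, by show g x ≤ a; rw [hgV x h1]; exact h3⟩, by
      show a - s ≤ g x
      rw [hgV x h1]; exact h2⟩
  have hp1 : p ≤ 1 := by
    have h1 : ENNReal.ofReal p * volume K ≤ 1 * volume K := by
      rw [one_mul]
      exact hnear'.trans (measure_mono (inter_subset_left.trans hK'sub))
    have h2 := (ENNReal.mul_le_mul_iff_left hpos.ne' hfin).1 h1
    rwa [← ENNReal.ofReal_one, ENNReal.ofReal_le_ofReal_iff zero_le_one] at h2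
  have hq : volume (K' ∩ {x | 2 * s ≤ a - g x}) ≤ ENNReal.ofReal (1 - p) * volume K' := by
    have hm : MeasurableSet (K' ∩ {x | a - s ≤ g x}) :=
      hK'c.measurableSet.inter (isClosed_le continuous_const hg).measurableSet
    have h1 : K' ∩ {x | 2 * s ≤ a - g x} ⊆ K' \ (K' ∩ {x | a - s ≤ g x}) := by
      rintro x ⟨h2, h3⟩
      refine ⟨h2, fun h4 => ?_⟩
      have h5 : 2 * s ≤ a - g x := h3
      have h6 : a - s ≤ g x := h4.2
      linarith
    refine (measure_mono h1).trans ?_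
    rw [measure_sdiff inter_subset_left hm.nullMeasurableSet
      (ne_top_of_le_ne_top hfin' (measure_mono inter_subset_left))]
    have h2 : ENNReal.ofReal p * volume K' ≤ volume (K' ∩ {x | a - s ≤ g x}) :=
      le_trans (by gcongr) hnear'
    calc volume K' - volume (K' ∩ {x | a - s ≤ g x}) ≤ volume K' - ENNReal.ofReal p * volume K' :=
          tsub_le_tsub_left h2 _
      _ = ENNReal.ofReal (1 - p) * volume K' := by
          rw [ENNReal.ofReal_sub _ hp.le, ENNReal.ofReal_one, ENNReal.sub_mul (fun _ _ => hfin'),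
            one_mul]
  have hcon' : ConcaveOn ℝ K' fun x => a - g x := by
    refine ⟨hK'conv, fun x hx y hy u v hu hv huv => ?_⟩
    have h1 := hVcon.2 hx.1 hy.1 hu hv huv
    have h2 := hVcon.1 hx.1 hy.1 hu hv huv
    simp only [smul_eq_mul] at h1 ⊢
    rw [hgV _ h2, hgV _ hx.1, hgV _ hy.1]
    have h3 : u * (a - V x) + v * (a - V y) = (u + v) * a - (u * V x + v * V y) := by ring
    rw [h3, huv, one_mul]
    linarith
  have hmid : ∀ x ∈ K, ∀ y ∈ K, (1 / 2 : ℝ) • (x + y) ∈ K := by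
    intro x hx y hy
    rw [smul_add]
    exact hKc hx hy (by norm_num) (by norm_num) (by norm_num)
  have hlip : ∀ f : Eu κ → ℝ, ContDiff ℝ 1 f → (∀ x, ‖fderiv ℝ f x‖ ≤ 1) →
      VV K' f ≤ 176 * (t * (1 + 2 * (2 * s) / (p * δ))) ^ 2 := fun f hf hf1 =>
    lipvar (h := fun x => a - g x) hK'c hpos' (continuous_const.sub hg) hcon' ht hδ (fun x hx y hy hxy => by
      have h1 := hd x hx.1 y hy.1 hxy
      show (a - g x + (a - g y)) / 2 + δ ≤ a - g ((1 / 2 : ℝ) • (x + y))
      rw [hgV _ hx.1, hgV _ hy.1, hgV _ (hmid x hx.1 y hy.1)]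
      linarith) (fun x hx => by
      show 0 ≤ a - g x
      have h1 : g x ≤ a := hx.2
      linarith) (by positivity : 0 < 2 * s) hp hp1 hq hf hf1
  have hD0 : 0 < 176 * (t * (1 + 2 * (2 * s) / (p * δ))) ^ 2 := by positivity
  obtain ⟨θ, hθ, hθl⟩ := hth
  obtain ⟨b, hb, hE⟩ := H κ (interior K) K' isOpen_interior hKc.interior hbd h0 hsi hK'c hK'conv
    hpos' (by rw [hcl]; exact hK'sub) (by rw [hcl]; exact hvol) _ hD0 hlip lam hlam
    ⟨θ, hθ, by
      refine hθl.trans (le_of_eq ?_)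
      unfold EV
      rw [setIntegral_congr_set hKae, measure_congr hKae]⟩
  refine ⟨b, hb, fun E hEm hEs hEv => (hE E hEm hEs hEv).trans ?_⟩
  refine mul_le_mul' (ENNReal.ofReal_le_ofReal ?_) le_rfl
  rw [mul_assoc C 56]
  refine mul_le_mul_of_nonneg_left ?_ hC.le
  have hsl : 0 < Real.sqrt lam := Real.sqrt_pos.2 hlam
  rw [Real.sqrt_mul (by norm_num), Real.sqrt_sq (by positivity), div_le_iff₀ hsl]
  have h14 : Real.sqrt 176 ≤ 14 := by
    rw [Real.sqrt_le_left (by norm_num)]
    norm_num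
  have e1 : 56 * (t / Real.sqrt lam * (1 + s / (p * δ))) * Real.sqrt lam =
      14 * (t * (4 * (1 + s / (p * δ)))) := by
    field_simp
    ring
  rw [e1]
  have h4 : 1 + 2 * (2 * s) / (p * δ) ≤ 4 * (1 + s / (p * δ)) := by
    have : 2 * (2 * s) / (p * δ) = 4 * (s / (p * δ)) := by ring
    rw [this]
    linarith
  gcongr

end Pool.Agent.H59.SC
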