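import Pool.Agent.H59.SC.Conc
import Pool.Agent.H59.L.S8.W695.KH.Final

/-!
# From Lipschitz functions on a large part of a body to hyperplane cuts

`wpo'` is `Q188.SB.wpo` of the library with a weaker hypothesis (the proof is a copy).
-/

set_option autoImplicit false

namespace Pool.Agent.H59.SC

open MeasureTheory Set Filter Topology
open scoped ENNReal InnerProductSpace Pointwise
open Pool.Agent.W695.KH
open Pool.Agent.W12.KH

variable {κ : Type} [Fintype κ]

/-- weak Poincare inequality for the approximations -/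
theorem wpo' (D : Set (Eu κ)) (hD : IsCompact D) (hvol : 0 < volume D)
    (D0 : ℝ) (hD0 : 0 < D0)
    (hn : ∀ u : Eu κ → ℝ, ContDiff ℝ 1 u → (∀ x, |u x| ≤ 1) → 49 / 1000 ≤ VV D u →
      (48 / 1000) ^ 2 * (39999 / 40000) / (8 * D0) ≤ EV D fun x => ‖fderiv ℝ u x‖ ^ 2) :
    ∀ᶠ A in atTop, WPo (Uu D A) (1 / 20) (1 / (3600 * D0)) := by
  have hne : D.Nonempty := by
    rw [nonempty_iff_ne_empty]
    intro h
    rw [h, measure_empty] at hvol
    exact lt_irrefl _ hvol
  have hfin : volume D ≠ ⊤ := hD.measure_lt_top.ne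
  have hpos : 0 < (volume D).toReal := ENNReal.toReal_pos hvol.ne' hfin
  set V := (volume D).toReal with hV
  have h2 := tend (κ := κ) hD hne (g := fun _ => 1) (B := 1) continuous_const
        (fun x => by rw [abs_one, one_mul]; nlinarith [sq_nonneg ‖x‖])
  have h3 : (∫ _x in D, (1 : ℝ)) = V := by
    simp [Measure.real, hV]
  rw [h3] at h2
  simp only [one_mul] at h2
  have hev : ∀ᶠ A in atTop, ∫ x, wt D A x < (1 + 1 / 20000) * V :=
    h2.eventually (eventually_lt_nhds (by nlinarith))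
  filter_upwards [hev, eventually_gt_atTop (0 : ℝ)] with A hZ1 hA
  intro v L hv hvb hvL hδ
  set Z := ∫ x, wt D A x with hZ
  have hwi : Integrable (wt D A) := by
    have := wt_int (κ := κ) hD hne hA (g := fun _ => 1) (B := 1) continuous_const
      (fun x => by rw [abs_one, one_mul]; nlinarith [sq_nonneg ‖x‖])
    simpa using this
  have hwD : ∀ x ∈ D, wt D A x = 1 := by
    intro x hx
    unfold wt
    rw [Metric.infDist_zero_of_mem hx]
    simp
  -- splitting
  have split : ∀ g : Eu κ → ℝ, Integrable (fun x => g x * wt D A x) →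
      ∫ x, g x * wt D A x = (∫ x in D, g x) + ∫ x in Dᶜ, g x * wt D A x := by
    intro g hg
    rw [← integral_add_compl hD.measurableSet hg]
    congr 1
    refine setIntegral_congr_fun hD.measurableSet fun x hx => ?_
    show g x * wt D A x = g x
    rw [hwD x hx, mul_one]
  have hZs : Z = V + ∫ x in Dᶜ, wt D A x := by
    have := split (fun _ => 1) (by simpa using hwi)
    simp only [one_mul] at this
    rw [h3] at this
    exact this
  set T := ∫ x in Dᶜ, wt D A x with hT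
  have hT0 : 0 ≤ T := integral_nonneg fun x => (wt_pos D A x).le
  have hT1 : T < 1 / 20000 * V := by linarith
  have hZV : V ≤ Z := by linarith
  have hZpos : 0 < Z := by linarith
  -- a bounded function
  have hfar : ∀ g : Eu κ → ℝ, Continuous g → (∀ x, |g x| ≤ 1) → |∫ x in Dᶜ, g x * wt D A x| ≤ T := by
    intro g hg hg1
    rw [← Real.norm_eq_abs]
    refine norm_integral_le_of_norm_le hwi.integrableOn (Eventually.of_forall fun x => ?_)
    rw [norm_mul, Real.norm_eq_abs, Real.norm_of_nonneg (wt_pos D A x).le]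
    exact mul_le_of_le_one_left (wt_pos D A x).le (hg1 x)
  have hgi : ∀ (g : Eu κ → ℝ) (B : ℝ), Continuous g → (∀ x, |g x| ≤ B) → Integrable fun x => g x * wt D A x := by
    intro g B hg hg1
    refine wt_int hD hne hA (B := B) hg fun x => (hg1 x).trans ?_
    have hB : 0 ≤ B := (abs_nonneg _).trans (hg1 x)
    nlinarith [sq_nonneg ‖x‖, mul_nonneg hB (sq_nonneg ‖x‖)]
  have hEV : ∀ g : Eu κ → ℝ, ∫ x in D, g x = V * EV D g := by
    intro g
    unfold EV
    rw [← hV]
    field_simp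
  have hEVb : ∀ g : Eu κ → ℝ, (∀ x, |g x| ≤ 1) → |EV D g| ≤ 1 := by
    intro g hg
    unfold EV
    rw [abs_div, abs_of_pos hpos, div_le_one hpos, ← Real.norm_eq_abs]
    have := norm_setIntegral_le_of_norm_le_const (μ := volume) (s := D) (f := g) (C := 1)
      hD.measure_lt_top (fun x _ => by rw [Real.norm_eq_abs]; exact hg x)
    rw [one_mul] at this
    exact this
  -- closeness
  have close : ∀ g : Eu κ → ℝ, Continuous g → (∀ x, |g x| ≤ 1) →
      |EU (Uu D A) g - EV D g| ≤ 1 / 10000 := by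
    intro g hg hg1
    rw [EU_eq hD hne hA, split g (hgi g 1 hg hg1), hEV, ← hZ]
    have e1 : (V * EV D g + ∫ x in Dᶜ, g x * wt D A x) / Z - EV D g =
        ((∫ x in Dᶜ, g x * wt D A x) - T * EV D g) / Z := by
      rw [hZs]
      have : V + T ≠ 0 := by linarith
      field_simp
      ring
    rw [e1, abs_div, abs_of_pos hZpos, div_le_iff₀ hZpos]
    have h5 := hfar g hg hg1
    have h6 := hEVb g hg1
    have h7 : |(∫ x in Dᶜ, g x * wt D A x) - T * EV D g| ≤ T + T * 1 := by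
      refine (abs_sub _ _).trans (add_le_add h5 ?_)
      rw [abs_mul, abs_of_nonneg hT0]
      exact mul_le_mul_of_nonneg_left h6 hT0
    linarith
  have hvc := hv.continuous
  have c1 := close v hvc hvb
  have c2 := close (fun x => v x ^ 2) (hvc.pow 2) (fun x => by
    rw [abs_of_nonneg (sq_nonneg _), ← sq_abs]
    have := hvb x
    have := abs_nonneg (v x)
    nlinarith)
  have b1 := hEVb v hvb
  have hVV : 49 / 1000 ≤ VV D v := by
    unfold VV
    rw [abs_le] at c1 c2 b1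
    set a := EU (Uu D A) v
    set b := EV D v
    have : a ^ 2 - b ^ 2 ≥ -(21 / 100000) := by
      have : a ^ 2 - b ^ 2 = (a - b) * (a - b) + 2 * b * (a - b) := by ring
      rw [this]
      nlinarith [mul_nonneg (sub_nonneg.2 c1.1) (sub_nonneg.2 b1.1),
        mul_nonneg (sub_nonneg.2 c1.2) (sub_nonneg.2 b1.1),
        mul_nonneg (sub_nonneg.2 c1.1) (sub_nonneg.2 b1.2),
        mul_nonneg (sub_nonneg.2 c1.2) (sub_nonneg.2 b1.2)]
    linarith
  have hn1 := hn v hv hvb hVV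
  have hg0 : ∀ x, 0 ≤ ‖fderiv ℝ v x‖ ^ 2 := fun x => sq_nonneg _
  have hgc : Continuous fun x => ‖fderiv ℝ v x‖ ^ 2 :=
    ((hv.continuous_fderiv (by norm_num)).norm).pow 2
  have hEUg : V / Z * EV D (fun x => ‖fderiv ℝ v x‖ ^ 2) ≤ EU (Uu D A) fun x => ‖fderiv ℝ v x‖ ^ 2 := by
    rw [EU_eq hD hne hA, split _ (hgi _ (L ^ 2) hgc fun x => by
      rw [abs_of_nonneg (hg0 x)]
      exact pow_le_pow_left₀ (norm_nonneg _) (hvL x) 2), hEV, ← hZ]
    rw [div_mul_eq_mul_div]
    gcongr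
    have : 0 ≤ ∫ x in Dᶜ, ‖fderiv ℝ v x‖ ^ 2 * wt D A x :=
      integral_nonneg fun x => mul_nonneg (hg0 x) (wt_pos D A x).le
    linarith
  refine le_trans ?_ hEUg
  have hVZ : 20000 / 20001 ≤ V / Z := by
    rw [div_le_div_iff₀ (by norm_num) hZpos]
    linarith
  have hE : (48 / 1000) ^ 2 * (39999 / 40000) / (8 * D0) ≤ EV D fun x => ‖fderiv ℝ v x‖ ^ 2 := hn1
  calc 1 / (3600 * D0) ≤ 20000 / 20001 * ((48 / 1000) ^ 2 * (39999 / 40000) / (8 * D0)) := by
        have e : 20000 / 20001 * ((48 / 1000) ^ 2 * (39999 / 40000) / (8 * D0)) =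
            (20000 / 20001 * ((48 / 1000) ^ 2 * (39999 / 40000)) / 8) * (1 / D0) := by
          field_simp
        have e' : 1 / (3600 * D0) = (1 / 3600) * (1 / D0) := by
          field_simp
        rw [e, e']
        have : 0 ≤ 1 / D0 := by positivity
        refine mul_le_mul_of_nonneg_right ?_ this
        norm_num
    _ ≤ V / Z * EV D (fun x => ‖fderiv ℝ v x‖ ^ 2) := by
        gcongr


/-- from a large part of the body -/
theorem sub_nash {D D' : Set (Eu κ)} (hD : IsCompact D) (hD' : IsCompact D') (hc' : Convex ℝ D')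
    (hpos' : 0 < volume D') (hsub : D' ⊆ D)
    (hε : volume (D \ D') ≤ ENNReal.ofReal (1 / 40000) * volume D) {D0 : ℝ} (hD0 : 0 < D0)
    (hlip : ∀ f : Eu κ → ℝ, ContDiff ℝ 1 f → (∀ x, ‖fderiv ℝ f x‖ ≤ 1) → VV D' f ≤ D0)
    (u : Eu κ → ℝ) (hu : ContDiff ℝ 1 u) (hb : ∀ x, |u x| ≤ 1) (hV : 49 / 1000 ≤ VV D u) :
    (48 / 1000) ^ 2 * (39999 / 40000) / (8 * D0) ≤ EV D fun x => ‖fderiv ℝ u x‖ ^ 2 := by
  have hpos : 0 < volume D := hpos'.trans_le (measure_mono hsub)
  have hfin : volume D ≠ ⊤ := hD.measure_lt_top.ne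
  have hfin' : volume D' ≠ ⊤ := hD'.measure_lt_top.ne
  have hN : 0 < (volume D).toReal := ENNReal.toReal_pos hpos.ne' hfin
  have hN' : 0 < (volume D').toReal := ENNReal.toReal_pos hpos'.ne' hfin'
  set N := (volume D).toReal with hNd
  set N' := (volume D').toReal with hNd'
  have hint : ∀ k : Eu κ → ℝ, Continuous k → IntegrableOn k D := fun k hk =>
    hk.continuousOn.integrableOn_compact hD
  have hdm : MeasurableSet (D \ D') := hD.measurableSet.diff hD'.measurableSet
  have hdfin : volume (D \ D') ≠ ⊤ := ne_top_of_le_ne_top hfin (measure_mono sdiff_subset)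
  have hdr : (volume (D \ D')).toReal ≤ 1 / 40000 * N := by
    have := ENNReal.toReal_mono (ENNReal.mul_ne_top ENNReal.ofReal_ne_top hfin) hε
    rwa [ENNReal.toReal_mul, ENNReal.toReal_ofReal (by norm_num)] at this
  have hdN : (volume (D \ D')).toReal = N - N' := by
    rw [measure_sdiff hsub hD'.measurableSet.nullMeasurableSet hfin',
      ENNReal.toReal_sub_of_le (measure_mono hsub) hfin]
  rw [hdN] at hdr
  have split : ∀ g : Eu κ → ℝ, Continuous g →
      ∫ x in D, g x = (∫ x in D', g x) + ∫ x in D \ D', g x := by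
    intro g hg
    have h1 : D = D' ∪ (D \ D') := (union_sdiff_cancel hsub).symm
    conv_lhs => rw [h1]
    exact setIntegral_union disjoint_sdiff_right hdm ((hint g hg).mono_set hsub)
      ((hint g hg).mono_set sdiff_subset)
  have close : ∀ g : Eu κ → ℝ, Continuous g → (∀ x, |g x| ≤ 1) →
      |EV D' g - EV D g| ≤ 1 / 20000 := by
    intro g hg hg1
    have h1 : |∫ x in D \ D', g x| ≤ N - N' := by
      have := norm_setIntegral_le_of_norm_le_const (μ := volume) (s := D \ D') (f := g) (C := 1)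
        hdfin.lt_top (fun x _ => by rw [Real.norm_eq_abs]; exact hg1 x)
      rw [one_mul, Real.norm_eq_abs, Measure.real, hdN] at this
      exact this
    have h2 : |∫ x in D', g x| ≤ N' := by
      have := norm_setIntegral_le_of_norm_le_const (μ := volume) (s := D') (f := g) (C := 1)
        hfin'.lt_top (fun x _ => by rw [Real.norm_eq_abs]; exact hg1 x)
      rw [one_mul, Real.norm_eq_abs, Measure.real] at this
      exact this
    unfold EV
    rw [← hNd, ← hNd', split g hg]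
    set a := ∫ x in D', g x
    set b := ∫ x in D \ D', g x
    have e : a / N' - (a + b) / N = (a / N' * (N - N') - b) / N := by
      field_simp
      ring
    rw [e, abs_div, abs_of_pos hN, div_le_iff₀ hN]
    have h3 : |a / N'| ≤ 1 := by
      rw [abs_div, abs_of_pos hN', div_le_one hN']
      exact h2
    have h4 : 0 ≤ N - N' := (abs_nonneg _).trans h1
    have h5 : |a / N' * (N - N')| ≤ N - N' := by
      rw [abs_mul, abs_of_nonneg h4]
      exact mul_le_of_le_one_left h4 h3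
    calc |a / N' * (N - N') - b| ≤ |a / N' * (N - N')| + |b| := abs_sub _ _
      _ ≤ 1 / 20000 * N := by linarith
  have huc := hu.continuous
  have c1 := close u huc hb
  have c2 := close (fun x => u x ^ 2) (huc.pow 2) (fun x => by
    rw [abs_of_nonneg (sq_nonneg _), ← sq_abs]
    have := hb x
    have := abs_nonneg (u x)
    nlinarith)
  have hEVb : |EV D u| ≤ 1 := by
    unfold EV
    rw [← hNd, abs_div, abs_of_pos hN, div_le_one hN]
    have := norm_setIntegral_le_of_norm_le_const (μ := volume) (s := D) (f := u) (C := 1)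
      hfin.lt_top (fun x _ => by rw [Real.norm_eq_abs]; exact hb x)
    rw [one_mul, Real.norm_eq_abs, Measure.real] at this
    exact this
  have hVV' : 48 / 1000 ≤ VV D' u := by
    unfold VV at hV ⊢
    rw [abs_le] at c1 c2 hEVb
    set a := EV D' u
    set b := EV D u
    have : a ^ 2 - b ^ 2 ≤ 21 / 100000 := by
      have : a ^ 2 - b ^ 2 = (a - b) * (a - b) + 2 * b * (a - b) := by ring
      rw [this]
      nlinarith [mul_nonneg (sub_nonneg.2 c1.1) (sub_nonneg.2 hEVb.1),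
        mul_nonneg (sub_nonneg.2 c1.2) (sub_nonneg.2 hEVb.1),
        mul_nonneg (sub_nonneg.2 c1.1) (sub_nonneg.2 hEVb.2),
        mul_nonneg (sub_nonneg.2 c1.2) (sub_nonneg.2 hEVb.2)]
    linarith
  have hn := Pool.Agent.Q188.SB.nash D' hD' hc' hpos' D0 hD0 hlip u hu hb
  have h1 : (48 / 1000) ^ 2 / (8 * D0) ≤ EV D' fun x => ‖fderiv ℝ u x‖ ^ 2 := by
    rw [div_le_iff₀ (by positivity)]
    have : (48 / 1000 : ℝ) ^ 2 ≤ VV D' u ^ 2 := pow_le_pow_left₀ (by norm_num) hVV' 2
    linarith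
  have hgc : Continuous fun x => ‖fderiv ℝ u x‖ ^ 2 :=
    ((hu.continuous_fderiv (by norm_num)).norm).pow 2
  have h2 : ∫ x in D', ‖fderiv ℝ u x‖ ^ 2 ≤ ∫ x in D, ‖fderiv ℝ u x‖ ^ 2 := by
    rw [split _ hgc]
    have : 0 ≤ ∫ x in D \ D', ‖fderiv ℝ u x‖ ^ 2 := integral_nonneg fun x => sq_nonneg _
    linarith
  have h3 : 39999 / 40000 * (EV D' fun x => ‖fderiv ℝ u x‖ ^ 2) ≤ EV D fun x => ‖fderiv ℝ u x‖ ^ 2 := by
    unfold EV
    rw [← hNd, ← hNd', le_div_iff₀ hN]
    have h4 : 39999 / 40000 * N ≤ N' := by linarith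
    have h5 : 0 ≤ (∫ x in D', ‖fderiv ℝ u x‖ ^ 2) / N' :=
      div_nonneg (integral_nonneg fun x => sq_nonneg _) hN'.le
    calc 39999 / 40000 * ((∫ x in D', ‖fderiv ℝ u x‖ ^ 2) / N') * N
        = (∫ x in D', ‖fderiv ℝ u x‖ ^ 2) / N' * (39999 / 40000 * N) := by ring
      _ ≤ (∫ x in D', ‖fderiv ℝ u x‖ ^ 2) / N' * N' := by gcongr
      _ = ∫ x in D', ‖fderiv ℝ u x‖ ^ 2 := by field_simp
      _ ≤ _ := h2
  have h6 : (48 / 1000) ^ 2 * (39999 / 40000) / (8 * D0) =
      39999 / 40000 * ((48 / 1000) ^ 2 / (8 * D0)) := by ring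
  rw [h6]
  refine le_trans ?_ h3
  gcongr

theorem EV_smul (S : Set (Eu κ)) (r : ℝ) (hr : 0 < r) (f : Eu κ → ℝ) :
    EV (r • S) f = EV S (fun x => f (r • x)) := by
  have h1 := Measure.setIntegral_comp_smul_of_pos (volume : Measure (Eu κ)) f S hr
  have h2 : volume (r • S) = ENNReal.ofReal |r ^ Module.finrank ℝ (Eu κ)| * volume S :=
    Measure.addHaar_smul volume r S
  unfold EV
  rw [h1, h2, ENNReal.toReal_mul, ENNReal.toReal_ofReal (abs_nonneg _),
    abs_of_pos (pow_pos hr _), smul_eq_mul]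
  have : r ^ Module.finrank ℝ (Eu κ) ≠ 0 := (pow_pos hr _).ne'
  field_simp

theorem lip_smul {S : Set (Eu κ)} {r : ℝ} (hr0 : 0 < r) (hr1 : r < 1) {D0 : ℝ}
    (hlip : ∀ f : Eu κ → ℝ, ContDiff ℝ 1 f → (∀ x, ‖fderiv ℝ f x‖ ≤ 1) → VV S f ≤ D0)
    (g : Eu κ → ℝ) (hg : ContDiff ℝ 1 g) (hg1 : ∀ x, ‖fderiv ℝ g x‖ ≤ 1) : VV (r • S) g ≤ D0 := by
  have h1 : VV (r • S) g = VV S fun x => g (r • x) := by
    unfold VV
    rw [EV_smul S r hr0, EV_smul S r hr0]
  rw [h1]
  refine hlip _ (hg.comp (contDiff_id.const_smul r)) fun x => ?_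
  have h2 : HasFDerivAt (fun x : Eu κ => g (r • x))
      ((fderiv ℝ g (r • x)).comp (r • ContinuousLinearMap.id ℝ (Eu κ))) x :=
    ((hg.differentiable (by norm_num)).differentiableAt.hasFDerivAt).comp x
      ((hasFDerivAt_id x).const_smul r)
  rw [h2.fderiv]
  refine (ContinuousLinearMap.opNorm_comp_le _ _).trans ?_
  have h3 : ‖r • ContinuousLinearMap.id ℝ (Eu κ)‖ ≤ 1 := by
    rw [norm_smul, Real.norm_eq_abs, abs_of_pos hr0]
    have h4 := ContinuousLinearMap.norm_id_le (𝕜 := ℝ) (E := Eu κ)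
    have h5 := norm_nonneg (ContinuousLinearMap.id ℝ (Eu κ))
    nlinarith
  have h6 := hg1 (r • x)
  have h7 := norm_nonneg (fderiv ℝ g (r • x))
  have h8 := norm_nonneg (r • ContinuousLinearMap.id ℝ (Eu κ))
  nlinarith

/-- **hyperplane cuts** -/
theorem hyp_sub : ∃ C : ℝ, 0 < C ∧ ∀ (κ : Type) [Fintype κ] [Nonempty κ]
    (Ω K' : Set (EuclideanSpace ℝ κ)), IsOpen Ω → Convex ℝ Ω → Bornology.IsBounded Ω →
    (0 : EuclideanSpace ℝ κ) ∈ Ω → (∀ x ∈ Ω, -x ∈ Ω) →
    IsCompact K' → Convex ℝ K' → 0 < volume K' → K' ⊆ closure Ω →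
    volume (closure Ω \ K') ≤ ENNReal.ofReal (1 / 40000) * volume (closure Ω) →
    ∀ D0 : ℝ, 0 < D0 →
    (∀ f : Eu κ → ℝ, ContDiff ℝ 1 f → (∀ x, ‖fderiv ℝ f x‖ ≤ 1) → VV K' f ≤ D0) →
    ∀ lam : ℝ, 0 < lam → (∃ θ : Eu κ, ‖θ‖ = 1 ∧ lam ≤ EV Ω (fun x => ⟪θ, x⟫_ℝ ^ 2)) →
    ∃ a : EuclideanSpace ℝ κ, a ≠ 0 ∧ ∀ E : Set (EuclideanSpace ℝ κ), MeasurableSet E → E ⊆ Ω →
      volume E = volume Ω / 2 →
      sec Ω a ≤ ENNReal.ofReal (C * (Real.sqrt D0 / Real.sqrt lam)) * per E Ω := by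
  obtain ⟨Cs, hCs, hsc⟩ := sec_bound
  refine ⟨360 * Real.sqrt Cs, by positivity, ?_⟩
  intro κ _ _ Ω K' ho hconv hbd h0 hsym hK hKc hKpos hKsub hKvol D0 hD0 hlip lam hlam ⟨θ, hθ, hθlam⟩
  obtain ⟨a, ha, hmax⟩ := Pool.Agent.W932.KH.q_max (Ω := Ω) ho hbd
  set s := EV Ω (fun x => ⟪a, x⟫_ℝ ^ 2) with hsdef
  have hslam : lam ≤ s := by
    have := hmax θ
    rw [hθ, one_pow, mul_one] at this
    exact hθlam.trans this
  have hspos : 0 < s := hlam.trans_le hslam
  have hfin : volume Ω < ⊤ := hbd.measure_lt_top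
  have hvol : 0 < (volume Ω).toReal :=
    ENNReal.toReal_pos (ho.measure_pos volume ⟨0, h0⟩).ne' hfin.ne
  refine ⟨a, ?_, ?_⟩
  · rintro rfl
    rw [norm_zero] at ha
    exact zero_ne_one ha
  intro E hE hEΩ hEvol
  by_cases hp : per E Ω = ⊤
  · rw [hp, ENNReal.mul_top]
    · exact le_top
    · rw [Ne, ENNReal.ofReal_eq_zero, not_le]
      positivity
  set P := (per E Ω).toReal with hPdef
  have hP : PerLe Ω E P := perLe_toReal E Ω hp
  have hP0 : 0 ≤ P := ENNReal.toReal_nonneg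
  have key : (volume Ω).toReal ≤ 3 * (120 * Real.sqrt D0) * P := by
    refine perim κ Ω ho hconv hbd h0 E hE hEΩ hEvol P hP (120 * Real.sqrt D0)
      (by positivity) ?_
    intro r hr0 hr1 f L M hf hf12 hV
    have hDc : IsCompact (r • closure Ω) :=
      (Metric.isCompact_of_isClosed_isBounded isClosed_closure hbd.closure).smul r
    have hDconv : Convex ℝ (r • closure Ω) := hconv.closure.smul r
    have hDvol : 0 < volume (r • closure Ω) := by
      rw [Measure.addHaar_smul]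
      refine ENNReal.mul_pos ?_ ?_
      · rw [abs_of_pos (pow_pos hr0 _)]
        exact (ENNReal.ofReal_pos.mpr (pow_pos hr0 _)).ne'
      · exact (lt_of_lt_of_le (ho.measure_pos volume ⟨0, h0⟩) (measure_mono subset_closure)).ne'
    have hKpos' : 0 < volume (r • K') := by
      rw [Measure.addHaar_smul]
      refine ENNReal.mul_pos ?_ hKpos.ne'
      rw [abs_of_pos (pow_pos hr0 _)]
      exact (ENNReal.ofReal_pos.mpr (pow_pos hr0 _)).ne'
    have hsub' : r • K' ⊆ r • closure Ω := smul_set_mono hKsub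
    have hvol' : volume (r • closure Ω \ r • K') ≤
        ENNReal.ofReal (1 / 40000) * volume (r • closure Ω) := by
      rw [← smul_set_sdiff₀ hr0.ne', Measure.addHaar_smul, Measure.addHaar_smul]
      calc ENNReal.ofReal |r ^ Module.finrank ℝ (Eu κ)| * volume (closure Ω \ K')
          ≤ ENNReal.ofReal |r ^ Module.finrank ℝ (Eu κ)| *
            (ENNReal.ofReal (1 / 40000) * volume (closure Ω)) := by gcongr
        _ = _ := by ring
    have hw := wpo' (r • closure Ω) hDc hDvol D0 hD0 (fun u hu hb hV =>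
      sub_nash hDc (hK.smul r) (hKc.smul r) hKpos' hsub' hvol' hD0
        (lip_smul hr0 hr1 hlip) u hu hb hV)
    have h2 := body κ (r • closure Ω) hDc hDconv hDvol (1 / 20) (1 / (3600 * D0)) (by norm_num)
      (by positivity) hw f L M hf hf12 (by linarith)
    refine h2.trans (le_of_eq ?_)
    rw [mul_pow, mul_pow, Real.sq_sqrt hD0.le]
    field_simp
    ring
  obtain ⟨hsec1, hsec2, -⟩ := hsc κ Ω ho hconv hbd h0 hsym a ha
  have hsq : (volume Ω).toReal ^ 2 ≤ 360 ^ 2 * D0 * P ^ 2 := by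
    refine (pow_le_pow_left₀ hvol.le key 2).trans (le_of_eq ?_)
    rw [mul_pow, mul_pow, mul_pow, Real.sq_sqrt hD0.le]
    ring
  have hsl : 0 < Real.sqrt lam := Real.sqrt_pos.2 hlam
  have h3 : (sec Ω a).toReal ^ 2 ≤ (360 * Real.sqrt Cs * (Real.sqrt D0 / Real.sqrt lam) * P) ^ 2 := by
    have h4 : (sec Ω a).toReal ^ 2 * s ≤ Cs * (360 ^ 2 * D0 * P ^ 2) :=
      hsec2.trans (mul_le_mul_of_nonneg_left hsq hCs.le)
    have h5 : (360 * Real.sqrt Cs * (Real.sqrt D0 / Real.sqrt lam) * P) ^ 2 =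
        Cs * (360 ^ 2 * D0 * P ^ 2) / lam := by
      rw [mul_pow, mul_pow, mul_pow, div_pow, Real.sq_sqrt hCs.le, Real.sq_sqrt hD0.le,
        Real.sq_sqrt hlam.le]
      ring
    rw [h5, le_div_iff₀ hlam]
    refine le_trans ?_ h4
    exact mul_le_mul_of_nonneg_left hslam (sq_nonneg _)
  have h7 : (sec Ω a).toReal ≤ 360 * Real.sqrt Cs * (Real.sqrt D0 / Real.sqrt lam) * P :=
    (pow_le_pow_iff_left₀ ENNReal.toReal_nonneg (by positivity) two_ne_zero).1 h3
  calc sec Ω a = ENNReal.ofReal (sec Ω a).toReal := (ENNReal.ofReal_toReal hsec1).symm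
    _ ≤ ENNReal.ofReal (360 * Real.sqrt Cs * (Real.sqrt D0 / Real.sqrt lam) * P) :=
        ENNReal.ofReal_le_ofReal h7
    _ = _ := by rw [ENNReal.ofReal_mul (by positivity), ENNReal.ofReal_toReal hp]

end Pool.Agent.H59.SC
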