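import Pool.Agent.H59.SC.Main

/-!
# Concentration from a function with midpoint defect, for functions which are Lipschitz for a seminorm
-/

set_option autoImplicit false

namespace Pool.Agent.H59.SC

open MeasureTheory Set Filter Topology
open scoped ENNReal InnerProductSpace
open Pool.Agent.W695.KH

variable {κ : Type} [Fintype κ] {K : Set (Eu κ)} {h : Eu κ → ℝ}

/-- the midpoint defect grows linearly -/
theorem doubling' {ρ : Eu κ → ℝ} (hρ : ∀ z, ρ ((1 / 2 : ℝ) • z) = ρ z / 2) (hcon : ConcaveOn ℝ K h) {t δ : ℝ} (ht : 0 < t)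
    (hd : ∀ x ∈ K, ∀ y ∈ K, t ≤ ρ (x - y) → (h x + h y) / 2 + δ ≤ h ((1 / 2 : ℝ) • (x + y)))
    (hδ : 0 < δ) (x : Eu κ) (hx : x ∈ K) (y : Eu κ) (hy : y ∈ K) (hxy : t ≤ ρ (x - y)) :
    (h x + h y) / 2 + δ * ρ (x - y) / (2 * t) ≤ h ((1 / 2 : ℝ) • (x + y)) := by
  have mid : ∀ x ∈ K, ∀ y ∈ K, (1 / 2 : ℝ) • (x + y) ∈ K := by
    intro x hx y hy
    rw [smul_add]
    exact hcon.1 hx hy (by norm_num) (by norm_num) (by norm_num)
  have claim : ∀ k : ℕ, ∀ x ∈ K, ∀ y ∈ K, 2 ^ k * t ≤ ρ (x - y) →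
      (h x + h y) / 2 + 2 ^ k * δ ≤ h ((1 / 2 : ℝ) • (x + y)) := by
    intro k
    induction k with
    | zero =>
      intro x hx y hy hxy
      rw [pow_zero, one_mul] at hxy ⊢
      exact hd x hx y hy hxy
    | succ k ih =>
      intro x hx y hy hxy
      set z := (1 / 2 : ℝ) • (x + y) with hz
      have hzK := mid x hx y hy
      have n1 : ρ (x - z) = ρ (x - y) / 2 := by
        have e : x - z = (1 / 2 : ℝ) • (x - y) := by rw [hz]; module
        rw [e, hρ]
      have n2 : ρ (z - y) = ρ (x - y) / 2 := by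
        have e : z - y = (1 / 2 : ℝ) • (x - y) := by rw [hz]; module
        rw [e, hρ]
      rw [pow_succ] at hxy ⊢
      have h1 := ih x hx z hzK (by rw [n1]; linarith)
      have h2 := ih z hzK y hy (by rw [n2]; linarith)
      have h3 := hcon.2 (mid x hx z hzK) (mid z hzK y hy) (by norm_num : (0 : ℝ) ≤ 1 / 2)
        (by norm_num : (0 : ℝ) ≤ 1 / 2) (by norm_num)
      have e : (1 / 2 : ℝ) • ((1 / 2 : ℝ) • (x + z)) + (1 / 2 : ℝ) • ((1 / 2 : ℝ) • (z + y)) = z := by
        rw [hz]; module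
      rw [e, smul_eq_mul, smul_eq_mul] at h3
      linarith
  obtain ⟨k, hk1, hk2⟩ := exists_nat_pow_near (x := ρ (x - y) / t) (y := 2)
    ((one_le_div ht).2 hxy) (by norm_num)
  have h1 := claim k x hx y hy (by rwa [le_div_iff₀ ht] at hk1)
  refine le_trans ?_ h1
  have h2 : δ * ρ (x - y) / (2 * t) = δ * (ρ (x - y) / t) / 2 := by field_simp
  rw [h2]
  rw [pow_succ] at hk2
  nlinarith

/-- the product of the exponential moments of `f` and `-f` -/
theorem prod_exp' {ρ : Eu κ → ℝ} (hρ : ∀ z, ρ ((1 / 2 : ℝ) • z) = ρ z / 2)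
    (hK : IsCompact K) (hc : Continuous h)
    (hcon : ConcaveOn ℝ K h) {t δ : ℝ} (ht : 0 < t) (hδ : 0 < δ)
    (hd : ∀ x ∈ K, ∀ y ∈ K, t ≤ ρ (x - y) → (h x + h y) / 2 + δ ≤ h ((1 / 2 : ℝ) • (x + y)))
    (h0 : ∀ x ∈ K, 0 ≤ h x) {l B : ℝ} (hl : 0 < l) (hlδ : l * δ ≤ 1)
    (hexp : ∫ x in K, Real.exp (l * h x) ≤ B * (volume K).toReal) {f : Eu κ → ℝ}
    (hfc : Continuous f) (hL' : ∀ x ∈ K, ∀ y ∈ K, f x - f y ≤ ρ (x - y)) :
    (∫ x in K, Real.exp (l * δ / t * f x)) * (∫ x in K, Real.exp (-(l * δ / t * f x))) ≤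
      Real.exp 1 * (B * (volume K).toReal) ^ 2 := by
  set s := l * δ / t with hs
  have hs0 : 0 < s := by positivity
  have hKm := hK.measurableSet
  have key := Pool.Agent.H212R2.KLS.PL (volume : Measure (Eu κ)) (1 / 2) (by norm_num) (by norm_num)
    (K.indicator fun x => ENNReal.ofReal (Real.exp (s * f x + l * h x)))
    (K.indicator fun x => ENNReal.ofReal (Real.exp (-(s * f x) + l * h x)))
    (K.indicator fun x => ENNReal.ofReal (Real.exp (1 / 2 + l * h x)))
    ((by fun_prop : Measurable fun x => ENNReal.ofReal (Real.exp (s * f x + l * h x))).indicator hKm)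
    ((by fun_prop : Measurable fun x => ENNReal.ofReal (Real.exp (-(s * f x) + l * h x))).indicator hKm)
    ((by fun_prop : Measurable fun x => ENNReal.ofReal (Real.exp (1 / 2 + l * h x))).indicator hKm)
    (fun x y => by
      have e12 : (1 - 1 / 2 : ℝ) = 1 / 2 := by norm_num
      rw [e12]
      by_cases hx : x ∈ K
      · by_cases hy : y ∈ K
        · have hz : (1 / 2 : ℝ) • x + (1 / 2 : ℝ) • y ∈ K :=
            hcon.1 hx hy (by norm_num) (by norm_num) (by norm_num)
          rw [indicator_of_mem hx, indicator_of_mem hy, indicator_of_mem hz,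
            ENNReal.ofReal_rpow_of_pos (Real.exp_pos _), ENNReal.ofReal_rpow_of_pos (Real.exp_pos _),
            ← ENNReal.ofReal_mul (by positivity), ← Real.exp_mul, ← Real.exp_mul, ← Real.exp_add]
          apply ENNReal.ofReal_le_ofReal
          apply Real.exp_le_exp.2
          have hL := hL' x hx y hy
          have hsL : s * (f x - f y) ≤ s * ρ (x - y) := mul_le_mul_of_nonneg_left hL hs0.le
          rcases le_or_gt t (ρ (x - y)) with h1 | h1
          · have h2 := doubling' hρ hcon ht hd hδ x hx y hy h1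
            rw [smul_add] at h2
            have h3 := mul_le_mul_of_nonneg_left h2 hl.le
            have h4 : l * (δ * ρ (x - y) / (2 * t)) = s * ρ (x - y) / 2 := by
              rw [hs]; field_simp
            nlinarith
          · have h2 := hcon.2 hx hy (by norm_num : (0 : ℝ) ≤ 1 / 2) (by norm_num : (0 : ℝ) ≤ 1 / 2)
              (by norm_num)
            rw [smul_eq_mul, smul_eq_mul] at h2
            have h3 := mul_le_mul_of_nonneg_left h2 hl.le
            have h4 : s * ρ (x - y) ≤ 1 := by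
              calc s * ρ (x - y) ≤ s * t := mul_le_mul_of_nonneg_left h1.le hs0.le
                _ = l * δ := by rw [hs]; field_simp
                _ ≤ 1 := hlδ
            nlinarith
        · rw [indicator_of_notMem hy, ENNReal.zero_rpow_of_pos (by norm_num), mul_zero]
          exact bot_le
      · rw [indicator_of_notMem hx, ENNReal.zero_rpow_of_pos (by norm_num), zero_mul]
        exact bot_le)
  have e12 : (1 - 1 / 2 : ℝ) = 1 / 2 := by norm_num
  rw [e12, lintegral_indicator hKm, lintegral_indicator hKm, lintegral_indicator hKm] at key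
  have cvt : ∀ g : Eu κ → ℝ, Continuous g → ∫⁻ x in K, ENNReal.ofReal (Real.exp (g x)) =
      ENNReal.ofReal (∫ x in K, Real.exp (g x)) := by
    intro g hg
    rw [ofReal_integral_eq_lintegral_ofReal]
    · exact (Real.continuous_exp.comp hg).continuousOn.integrableOn_compact hK
    · exact Eventually.of_forall fun x => (Real.exp_pos _).le
  rw [cvt _ (by fun_prop), cvt _ (by fun_prop), cvt _ (by fun_prop)] at key
  set a := ∫ x in K, Real.exp (s * f x + l * h x) with ha
  set b := ∫ x in K, Real.exp (-(s * f x) + l * h x) with hb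
  set c := ∫ x in K, Real.exp (1 / 2 + l * h x) with hcc
  have ha0 : 0 ≤ a := integral_nonneg fun x => (Real.exp_pos _).le
  have hb0 : 0 ≤ b := integral_nonneg fun x => (Real.exp_pos _).le
  have hc0 : 0 ≤ c := integral_nonneg fun x => (Real.exp_pos _).le
  rw [ENNReal.ofReal_rpow_of_nonneg ha0 (by norm_num), ENNReal.ofReal_rpow_of_nonneg hb0 (by norm_num),
    ← ENNReal.ofReal_mul (by positivity), ENNReal.ofReal_le_ofReal_iff hc0, ← Real.mul_rpow ha0 hb0,
    ← Real.sqrt_eq_rpow] at key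
  have h5 : a * b ≤ c ^ 2 := by
    have := pow_le_pow_left₀ (Real.sqrt_nonneg _) key 2
    rwa [Real.sq_sqrt (mul_nonneg ha0 hb0)] at this
  have h6 : c = Real.exp (1 / 2) * ∫ x in K, Real.exp (l * h x) := by
    rw [hcc, ← integral_const_mul]
    refine integral_congr_ae (Eventually.of_forall fun x => ?_)
    show Real.exp (1 / 2 + l * h x) = Real.exp (1 / 2) * Real.exp (l * h x)
    rw [Real.exp_add]
  have h7 : 0 ≤ ∫ x in K, Real.exp (l * h x) := integral_nonneg fun x => (Real.exp_pos _).le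
  have h8 : c ^ 2 ≤ Real.exp 1 * (B * (volume K).toReal) ^ 2 := by
    rw [h6, mul_pow]
    have e : Real.exp (1 / 2) ^ 2 = Real.exp 1 := by
      rw [← Real.exp_nat_mul]
      norm_num
    rw [e]
    gcongr
  have mono : ∀ g : Eu κ → ℝ, Continuous g → ∫ x in K, Real.exp (g x) ≤
      ∫ x in K, Real.exp (g x + l * h x) := by
    intro g hg
    refine setIntegral_mono_on ((Real.continuous_exp.comp hg).continuousOn.integrableOn_compact hK)
      ((Real.continuous_exp.comp (hg.add (continuous_const.mul hc))).continuousOn.integrableOn_compact hK)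
      hKm fun x hx => ?_
    apply Real.exp_le_exp.2
    have := mul_nonneg hl.le (h0 x hx)
    linarith
  have m1 := mono (fun x => s * f x) (by fun_prop)
  have m2 := mono (fun x => -(s * f x)) (by fun_prop)
  have n1 : 0 ≤ ∫ x in K, Real.exp (-(s * f x)) := integral_nonneg fun x => (Real.exp_pos _).le
  calc (∫ x in K, Real.exp (s * f x)) * (∫ x in K, Real.exp (-(s * f x))) ≤ a * b :=
        mul_le_mul m1 m2 n1 ha0
    _ ≤ _ := h5.trans h8

/-- **Lipschitz functions** -/
theorem lipvar' {ρ : Eu κ → ℝ} (hρ : ∀ z, ρ ((1 / 2 : ℝ) • z) = ρ z / 2)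
    (hK : IsCompact K) (hpos : 0 < volume K) (hc : Continuous h)
    (hcon : ConcaveOn ℝ K h) {t δ : ℝ} (ht : 0 < t) (hδ : 0 < δ)
    (hd : ∀ x ∈ K, ∀ y ∈ K, t ≤ ρ (x - y) → (h x + h y) / 2 + δ ≤ h ((1 / 2 : ℝ) • (x + y)))
    (h0 : ∀ x ∈ K, 0 ≤ h x) {u0 p : ℝ} (hu0 : 0 < u0) (hp : 0 < p) (hp1 : p ≤ 1)
    (hq : volume (K ∩ {x | u0 ≤ h x}) ≤ ENNReal.ofReal (1 - p) * volume K) {f : Eu κ → ℝ}
    (hfc : Continuous f) (hL' : ∀ x ∈ K, ∀ y ∈ K, f x - f y ≤ ρ (x - y)) :
    VV K f ≤ 176 * (t * (1 + 2 * u0 / (p * δ))) ^ 2 := by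
  have hV : 0 < (volume K).toReal := ENNReal.toReal_pos hpos.ne' hK.measure_lt_top.ne
  set l := min (p / (2 * u0)) (1 / δ) with hl
  have hl0 : 0 < l := lt_min (by positivity) (by positivity)
  have hl1 : l ≤ p / (2 * u0) := min_le_left _ _
  have hlδ : l * δ ≤ 1 := by
    have : l ≤ 1 / δ := min_le_right _ _
    rwa [le_div_iff₀ hδ] at this
  have hexp := expo (M := Real.exp 1) hK hc h0 (Real.exp_pos 1).le hl0 (fun u hu =>
    (level hK hpos hc hcon h0 hu0 hp hp1 hq u hu).trans (by
      gcongr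
      calc 2 * l ≤ 2 * (p / (2 * u0)) := by linarith
        _ = p / u0 := by field_simp))
  have h1 := prod_exp' hρ hK hc hcon ht hδ hd h0 hl0 hlδ hexp hfc hL'
  set s := l * δ / t with hs
  have hs0 : 0 < s := by positivity
  have h2 := var_of_exp (g := fun x => s * f x) (C := Real.exp 1 * (1 + Real.exp 1) ^ 2) hK hpos
    (by fun_prop) (by
      refine h1.trans (le_of_eq ?_)
      ring)
  have h3 : VV K (fun x => s * f x) = s ^ 2 * VV K f := by
    unfold VV EV
    have e1 : (fun x => (s * f x) ^ 2) = fun x => s ^ 2 * f x ^ 2 := by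
      funext x; ring
    rw [e1, integral_const_mul, integral_const_mul]
    ring
  rw [h3] at h2
  have he : 4 * (Real.exp 1 * (1 + Real.exp 1) ^ 2) ≤ 176 := by
    have := Real.exp_one_lt_d9
    have := Real.exp_pos 1
    have h4 : Real.exp 1 ≤ 2.72 := by linarith
    have h5 : (1 + Real.exp 1) ^ 2 ≤ 3.72 ^ 2 := pow_le_pow_left₀ (by positivity) (by linarith) 2
    calc 4 * (Real.exp 1 * (1 + Real.exp 1) ^ 2) ≤ 4 * (2.72 * 3.72 ^ 2) := by gcongr
      _ ≤ 176 := by norm_num
  have h4 : VV K f ≤ 176 / s ^ 2 := by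
    rw [le_div_iff₀ (by positivity)]
    linarith
  refine h4.trans ?_
  have h5 : 1 / s ≤ t * (1 + 2 * u0 / (p * δ)) := by
    rw [hs, one_div_div, div_le_iff₀ (by positivity)]
    have h6 : 1 ≤ (1 + 2 * u0 / (p * δ)) * (l * δ) := by
      rcases min_choice (p / (2 * u0)) (1 / δ) with h | h
      · have : l * δ = p * δ / (2 * u0) := by
          rw [hl, h]; ring
        rw [this]
        have h7 : 2 * u0 / (p * δ) * (p * δ / (2 * u0)) = 1 := by field_simp
        have h8 : 0 ≤ p * δ / (2 * u0) := by positivity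
        nlinarith
      · have : l * δ = 1 := by
          rw [hl, h]; field_simp
        rw [this]
        have h7 : 0 ≤ 2 * u0 / (p * δ) := by positivity
        linarith
    nlinarith
  have h6 : 176 / s ^ 2 = 176 * (1 / s) ^ 2 := by field_simp
  rw [h6]
  have h7 : 0 ≤ 1 / s := by positivity
  gcongr


theorem int_un (C : Set (Eu κ)) (g : Eu κ → ℝ) : ∫ x, g x ∂((volume C)⁻¹ • volume.restrict C) = EV C g := by
  unfold EV
  rw [integral_smul_measure, ENNReal.toReal_inv, smul_eq_mul]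
  ring

end Pool.Agent.H59.SC
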